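import Mathlib

/-!
# Common factors of coprime elements in a finite extension
-/

namespace Pool.Agent.Lib.P62i

open nonZeroDivisors

attribute [local instance] FractionRing.liftAlgebra

theorem intNorm_algebraMap {A B : Type*} [CommRing A] [IsDomain A] [IsIntegrallyClosed A]
    [CommRing B] [IsDomain B] [IsIntegrallyClosed B] [Algebra A B] [Module.Finite A B]
    [Module.IsTorsionFree A B] (a : A) : Algebra.intNorm A B (algebraMap A B a) =
      a ^ Module.finrank (FractionRing A) (FractionRing B) := by
  have : FiniteDimensional (FractionRing A) (FractionRing B) := .of_isLocalization A B A⁰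
  apply IsFractionRing.injective A (FractionRing A)
  rw [Algebra.algebraMap_intNorm_fractionRing, map_pow,
    ← IsScalarTower.algebraMap_apply A B (FractionRing B),
    IsScalarTower.algebraMap_apply A (FractionRing A) (FractionRing B), Algebra.norm_algebraMap]

/-- If the images of two coprime elements in a finite extension have a common factor, this factor
is a unit. -/
theorem isUnit_of_coprime {A B : Type*} [CommRing A] [IsDomain A] [UniqueFactorizationMonoid A]
    [CommRing B] [IsDomain B] [IsIntegrallyClosed B] [Algebra A B] [Module.Finite A B]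
    [Module.IsTorsionFree A B] {P Q : A} (h : IsRelPrime P Q) {u P' Q' : B}
    (hP : algebraMap A B P = u * P') (hQ : algebraMap A B Q = u * Q') : IsUnit u := by
  have h1 : Algebra.intNorm A B u ∣
      P ^ Module.finrank (FractionRing A) (FractionRing B) :=
    ⟨Algebra.intNorm A B P', by rw [← map_mul, ← hP, intNorm_algebraMap]⟩
  have h2 : Algebra.intNorm A B u ∣
      Q ^ Module.finrank (FractionRing A) (FractionRing B) :=
    ⟨Algebra.intNorm A B Q', by rw [← map_mul, ← hQ, intNorm_algebraMap]⟩
  have h3 : IsUnit (Algebra.intNorm A B u) := h.pow h1 h2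
  exact isUnit_of_dvd_unit (Algebra.dvd_algebraMap_intNorm_self A B u) (h3.map (algebraMap A B))

/-- The same for a finite injective ring homomorphism. -/
theorem isUnit_of_coprime' {A B : Type*} [CommRing A] [IsDomain A] [UniqueFactorizationMonoid A]
    [CommRing B] [IsDomain B] [IsIntegrallyClosed B] (φ : A →+* B) (hfin : φ.Finite)
    (hinj : Function.Injective φ) {P Q : A} (h : IsRelPrime P Q) {u P' Q' : B}
    (hP : φ P = u * P') (hQ : φ Q = u * Q') : IsUnit u := by
  letI := φ.toAlgebra
  haveI : Module.Finite A B := hfin
  haveI : Module.IsTorsionFree A B :=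
    (Module.isTorsionFree_iff_algebraMap_injective (R := A) (A := B)).2 hinj
  exact isUnit_of_coprime (A := A) (B := B) h hP hQ

end Pool.Agent.Lib.P62i
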