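import Pool.Agent.Lib.P62i.Caso
import Pool.Agent.Lib.P62i.NormC

/-!
# Rational functions invariant under an endomorphism of projective space are constant

`Φ` is a family of `n` forms of degree `m ≥ 2` in `n` variables such that the polynomial ring is
finite over the subring generated by them (i.e. an endomorphism of projective space).
-/

namespace Pool.Agent.Lib.P62i

open MvPolynomial

variable {k : Type*} [Field k] {n : ℕ} (Φ : Fin n → MvPolynomial (Fin n) k)

theorem aeval_injective (hfin : (aeval (R := k) Φ).toRingHom.Finite) :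
    Function.Injective (aeval (R := k) Φ) := by
  have hint : (aeval (R := k) Φ).toRingHom.IsIntegral := hfin.to_isIntegral
  have h1 : Algebra.IsAlgebraic (Algebra.adjoin k (Set.range Φ)) (MvPolynomial (Fin n) k) := by
    constructor
    intro x
    have h2 : IsIntegral (Algebra.adjoin k (Set.range Φ)) x := by
      obtain ⟨p, hp, hpx⟩ := hint x
      have h3 : ∀ q : MvPolynomial (Fin n) k, aeval Φ q ∈ Algebra.adjoin k (Set.range Φ) := by
        intro q
        rw [Algebra.adjoin_range_eq_range_aeval]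
        exact ⟨q, rfl⟩
      let g : MvPolynomial (Fin n) k →+* Algebra.adjoin k (Set.range Φ) :=
        (aeval (R := k) Φ).toRingHom.codRestrict (Algebra.adjoin k (Set.range Φ)).toSubring h3
      refine ⟨p.map g, hp.map g, ?_⟩
      rw [Polynomial.eval₂_map]
      exact hpx
    exact h2.isAlgebraic
  have h2 : IsTranscendenceBasis k Φ :=
    Algebra.IsAlgebraic.isTranscendenceBasis_of_lift_le_trdeg_of_finite k Φ (by
      rw [MvPolynomial.trdeg_of_isDomain]
      simp)
  exact h2.1

variable {Φ}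

theorem homogeneousComponent_aeval {m : ℕ} (hm : 1 ≤ m) (hhom : ∀ i, (Φ i).IsHomogeneous m)
    (P : MvPolynomial (Fin n) k) (d : ℕ) :
    homogeneousComponent (m * d) (aeval Φ P) = aeval Φ (homogeneousComponent d P) := by
  by_cases hd : d ∈ Finset.range (P.totalDegree + 1)
  · conv_lhs => rw [← sum_homogeneousComponent P]
    rw [map_sum, map_sum, Finset.sum_eq_single_of_mem d hd]
    · exact homogeneousComponent_eq_self ((homogeneousComponent_isHomogeneous d P).aeval Φ hhom)
    · intro i _ hi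
      rw [homogeneousComponent_of_mem ((homogeneousComponent_isHomogeneous i P).aeval Φ hhom),
        if_neg]
      intro h
      exact hi (Nat.eq_of_mul_eq_mul_left (by omega) h).symm
  · rw [Finset.mem_range, not_lt] at hd
    have h0 : homogeneousComponent d P = 0 := homogeneousComponent_eq_zero d P (by omega)
    rw [h0, map_zero]
    conv_lhs => rw [← sum_homogeneousComponent P]
    rw [map_sum, map_sum]
    refine Finset.sum_eq_zero fun i hi => ?_
    rw [homogeneousComponent_of_mem ((homogeneousComponent_isHomogeneous i P).aeval Φ hhom),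
      if_neg]
    intro h
    rw [Finset.mem_range] at hi
    have := Nat.eq_of_mul_eq_mul_left (by omega) h
    omega

theorem eq_C_of_aeval {m : ℕ} (hm : 2 ≤ m) (hhom : ∀ i, (Φ i).IsHomogeneous m)
    (hinj : Function.Injective (aeval (R := k) Φ)) {P : MvPolynomial (Fin n) k} {c : k}
    (h : aeval Φ P = C c * P) : ∃ a, P = C a := by
  refine ⟨coeff 0 P, totalDegree_eq_zero_iff_eq_C.1 ?_⟩
  by_contra hd
  have hP : P ≠ 0 := by
    rintro rfl
    exact hd totalDegree_zero
  have h1 : homogeneousComponent P.totalDegree P ≠ 0 := by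
    intro h0
    obtain ⟨s, hs, hs'⟩ := Finset.exists_mem_eq_sup P.support (by
      rwa [Finset.nonempty_iff_ne_empty, Ne, support_eq_empty]) fun s => s.sum fun _ e => e
    have h2 := coeff_homogeneousComponent (φ := P) (n := P.totalDegree) (d := s)
    rw [h0, coeff_zero, if_pos] at h2
    · exact (mem_support_iff.1 hs) h2.symm
    · rw [MvPolynomial.totalDegree, hs']
      rfl
  have h2 := homogeneousComponent_aeval (by omega) hhom P P.totalDegree
  rw [h, homogeneousComponent_C_mul,
    homogeneousComponent_eq_zero (h := by nlinarith [Nat.pos_of_ne_zero hd]), mul_zero] at h2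
  exact h1 (hinj (by rw [← h2, map_zero]))

/-- A rational function which is invariant under `Φ` is constant. -/
theorem fixed_const {m : ℕ} (hm : 2 ≤ m) (hhom : ∀ i, (Φ i).IsHomogeneous m)
    (hfin : (aeval (R := k) Φ).toRingHom.Finite)
    (σ : FractionRing (MvPolynomial (Fin n) k) →+* FractionRing (MvPolynomial (Fin n) k))
    (hσ : ∀ p, σ (algebraMap _ _ p) = algebraMap _ _ (aeval (R := k) Φ p))
    (x : FractionRing (MvPolynomial (Fin n) k)) (hx : σ x = x) :
    ∃ c : k, x = algebraMap (MvPolynomial (Fin n) k) _ (C c) := by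
  have hinj := aeval_injective Φ hfin
  obtain ⟨P, Q, hPQ, hx'⟩ := IsFractionRing.exists_reduced_fraction
    (A := MvPolynomial (Fin n) k) x
  have hQ0 : (Q : MvPolynomial (Fin n) k) ≠ 0 := nonZeroDivisors.coe_ne_zero Q
  have hιinj := IsFractionRing.injective (MvPolynomial (Fin n) k)
    (FractionRing (MvPolynomial (Fin n) k))
  have hιQ : algebraMap (MvPolynomial (Fin n) k) (FractionRing (MvPolynomial (Fin n) k)) Q ≠ 0 :=
    (map_ne_zero_iff _ hιinj).2 hQ0
  have hφQ0 : aeval (R := k) Φ (Q : MvPolynomial (Fin n) k) ≠ 0 :=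
    (map_ne_zero_iff _ hinj).2 hQ0
  have hιφQ : algebraMap (MvPolynomial (Fin n) k) (FractionRing (MvPolynomial (Fin n) k))
      (aeval Φ (Q : MvPolynomial (Fin n) k)) ≠ 0 := (map_ne_zero_iff _ hιinj).2 hφQ0
  rw [IsFractionRing.mk'_eq_div] at hx'
  have h1 : aeval Φ P * Q = P * aeval Φ (Q : MvPolynomial (Fin n) k) := by
    apply hιinj
    rw [map_mul, map_mul]
    rw [← hx', map_div₀, hσ, hσ, div_eq_div_iff hιφQ hιQ] at hx
    exact hx
  by_cases hP0 : P = 0
  · refine ⟨0, ?_⟩
    rw [← hx', hP0, map_zero, zero_div, C_0, map_zero]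
  obtain ⟨v, hv⟩ : P ∣ aeval Φ P := hPQ.dvd_of_dvd_mul_right ⟨_, h1⟩
  have hv2 : aeval Φ (Q : MvPolynomial (Fin n) k) = v * Q := by
    have h2 : P * (aeval Φ (Q : MvPolynomial (Fin n) k)) = P * (v * Q) := by
      rw [← h1, hv, mul_assoc]
    exact mul_left_cancel₀ hP0 h2
  have hvu : IsUnit v := isUnit_of_coprime' (aeval (R := k) Φ).toRingHom hfin hinj hPQ
    (P' := P) (Q' := Q) (by rw [← mul_comm P]; exact hv) hv2
  obtain ⟨c, hc⟩ : ∃ c : k, v = C c := by
    obtain ⟨c, hc, hcv⟩ := MvPolynomial.isUnit_iff_eq_C_of_isReduced.1 hvu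
    exact ⟨c, hcv⟩
  obtain ⟨a, ha⟩ := eq_C_of_aeval hm hhom hinj (P := P) (c := c) (by rw [hv, hc, mul_comm])
  obtain ⟨b, hb⟩ := eq_C_of_aeval hm hhom hinj (P := (Q : MvPolynomial (Fin n) k)) (c := c) (by
    rw [hv2, hc])
  have hb0 : b ≠ 0 := by
    rintro rfl
    exact hQ0 (by rw [hb, C_0])
  refine ⟨a / b, ?_⟩
  rw [← hx', ha, hb, div_eq_iff]
  · rw [← map_mul, ← C_mul, div_mul_cancel₀ _ hb0]
  · rw [← hb]; exact hιQ

/-- The Casoratian of linearly independent polynomials does not vanish. -/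
theorem caso_ne_zero {m : ℕ} (hm : 2 ≤ m) (hhom : ∀ i, (Φ i).IsHomogeneous m)
    (hfin : (aeval (R := k) Φ).toRingHom.Finite) {r : ℕ} (ψ : Fin r → MvPolynomial (Fin n) k)
    (hψ : LinearIndependent k ψ) :
    (Matrix.of fun i j : Fin r => (fun p => aeval (R := k) Φ p)^[(i : ℕ)] (ψ j)).det ≠ 0 := by
  intro h0
  have hinj := aeval_injective Φ hfin
  have hιinj := IsFractionRing.injective (MvPolynomial (Fin n) k)
    (FractionRing (MvPolynomial (Fin n) k))
  obtain ⟨ι, hι⟩ : ∃ ι : MvPolynomial (Fin n) k →+* FractionRing (MvPolynomial (Fin n) k),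
    ι = algebraMap _ _ := ⟨_, rfl⟩
  have hιinj' : Function.Injective ι := by rw [hι]; exact hιinj
  obtain ⟨σ, hσ⟩ : ∃ σ : FractionRing (MvPolynomial (Fin n) k) →+*
      FractionRing (MvPolynomial (Fin n) k), ∀ p, σ (ι p) = ι (aeval (R := k) Φ p) := by
    refine ⟨IsFractionRing.lift (A := MvPolynomial (Fin n) k)
      (g := ι.comp (aeval (R := k) Φ).toRingHom) (hιinj'.comp hinj), fun p => ?_⟩
    subst hι
    exact IsFractionRing.lift_algebraMap _ p
  have hit : ∀ (i : ℕ) p, (fun x => σ x)^[i] (ι p) = ι ((fun p => aeval (R := k) Φ p)^[i] p) := by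
    intro i
    induction i with
    | zero => intro p; rfl
    | succ i ih => intro p; rw [Function.iterate_succ_apply, Function.iterate_succ_apply, hσ, ih]
  obtain ⟨c, hc, hfix, hsum⟩ := caso σ (fun j => ι (ψ j)) (by
    have h1 : (Matrix.of fun i j : Fin r => (fun x => σ x)^[(i : ℕ)] (ι (ψ j))) =
        ι.mapMatrix (Matrix.of fun i j : Fin r =>
          (fun p => aeval (R := k) Φ p)^[(i : ℕ)] (ψ j)) := by
      ext i j
      rw [Matrix.of_apply, hit]
      rfl
    rw [h1, ← RingHom.map_det, h0, map_zero])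
  have hc' : ∀ j, ∃ a : k, c j = ι (C a) := by
    intro j
    rw [hι]
    exact fixed_const hm hhom hfin σ (by rw [hι] at hσ; exact hσ) (c j) (hfix j)
  choose a ha using hc'
  have h2 : ∑ j, a j • ψ j = 0 := by
    apply hιinj'
    rw [map_zero, map_sum, ← hsum]
    refine Finset.sum_congr rfl fun j _ => ?_
    rw [ha, smul_eq_C_mul, map_mul]
  apply hc
  funext j
  rw [ha, Fintype.linearIndependent_iff.1 hψ a h2 j, C_0, map_zero]
  rfl

end Pool.Agent.Lib.P62i
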