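import Mathlib

/-!
# The polynomial ring is finite over the subring generated by the forms of the map

`Φ 0 = X_0 ^ m`, `Φ a = ∑ b, A a b * X_b ^ m + X_0 ^ (m - e) * r_a` with an invertible matrix `A` and
forms `r_a` of degree `e < m`.
-/

namespace Pool.Agent.Lib.P62i

open MvPolynomial

theorem isIntegralElem_of_valuation {A B : Type*} [CommRing A] [CommRing B] [IsDomain B]
    (φ : A →+* B) (x : B)
    (h : ∀ V : ValuationSubring (FractionRing B),
      (∀ a, algebraMap B (FractionRing B) (φ a) ∈ V) → algebraMap B (FractionRing B) x ∈ V) :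
    φ.IsIntegralElem x := by
  obtain ⟨ι, hι⟩ : ∃ ι : B →+* FractionRing B, ι = algebraMap _ _ := ⟨_, rfl⟩
  have hιinj : Function.Injective ι := by rw [hι]; exact IsFractionRing.injective B _
  rw [← hι] at h
  have h1 : ι x ∈ (integralClosure (Subring.closure (Set.range (ι.comp φ)))
      (FractionRing B)).toSubring := by
    rw [← iInf_valuationSubring_superset, Subring.mem_iInf]
    rintro ⟨V, hV⟩
    exact h V fun a => hV ⟨a, rfl⟩
  have hcl : Subring.closure (Set.range (ι.comp φ)) = (ι.comp φ).range := by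
    rw [← RingHom.coe_range, Subring.closure_eq]
  obtain ⟨p, hp, hpx⟩ := h1
  have hsurj : ∀ c : Subring.closure (Set.range (ι.comp φ)), ∃ a : A, ι (φ a) = c := by
    rintro ⟨c, hc⟩
    rw [hcl] at hc
    obtain ⟨a, ha⟩ := hc
    exact ⟨a, ha⟩
  have hmem : ∀ a, (ι.comp φ) a ∈ Subring.closure (Set.range (ι.comp φ)) := fun a =>
    Subring.subset_closure ⟨a, rfl⟩
  let g : A →+* Subring.closure (Set.range (ι.comp φ)) := (ι.comp φ).codRestrict _ hmem
  have hg : ∀ a, ((g a : Subring.closure (Set.range (ι.comp φ))) : FractionRing B) =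
      ι (φ a) := fun _ => rfl
  have hlift : p ∈ Polynomial.lifts g := by
    rw [Polynomial.lifts_iff_coeff_lifts]
    intro n
    obtain ⟨a, ha⟩ := hsurj (p.coeff n)
    exact ⟨a, Subtype.ext (by rw [hg, ha])⟩
  obtain ⟨P, hP, -, hPm⟩ := Polynomial.lifts_and_natDegree_eq_and_monic hlift hp
  refine ⟨P, hPm, hιinj ?_⟩
  rw [map_zero, Polynomial.hom_eval₂, ← hpx, ← hP, Polynomial.eval₂_map]
  rfl

theorem finite_of_power {k : Type*} [Field k] {N m e : ℕ} (he : e < m)
    (Φ : Fin (N + 1) → MvPolynomial (Fin (N + 1)) k) (h0 : Φ 0 = X 0 ^ m)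
    (A : Matrix (Fin N) (Fin N) k) (hA : A.det ≠ 0) (r : Fin N → MvPolynomial (Fin (N + 1)) k)
    (hr : ∀ a, (r a).IsHomogeneous e)
    (hΦ : ∀ a, Φ a.succ = ∑ b, C (A a b) * X b.succ ^ m + X 0 ^ (m - e) * r a) :
    (aeval (R := k) Φ).toRingHom.Finite := by
  classical
  obtain ⟨φ, hφ⟩ : ∃ φ : MvPolynomial (Fin (N + 1)) k →+* MvPolynomial (Fin (N + 1)) k,
    φ = (aeval (R := k) Φ).toRingHom := ⟨_, rfl⟩
  have hφC : ∀ c, φ (C c) = C c := by
    intro c; rw [hφ]; exact (aeval (R := k) Φ).commutes c
  have hφX : ∀ i, φ (X i) = Φ i := by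
    intro i; rw [hφ]; exact aeval_X Φ i
  have hX : ∀ i, φ.IsIntegralElem (X i) := by
    intro i
    apply isIntegralElem_of_valuation
    intro V hV
    obtain ⟨ι, hι⟩ : ∃ ι : MvPolynomial (Fin (N + 1)) k →+*
        FractionRing (MvPolynomial (Fin (N + 1)) k),
      ι = algebraMap (MvPolynomial (Fin (N + 1)) k) _ := ⟨_, rfl⟩
    rw [← hι] at hV ⊢
    rw [← V.valuation_le_one_iff]
    have hV' : ∀ p, V.valuation (ι (φ p)) ≤ 1 := fun p => (V.valuation_le_one_iff _).2 (hV p)
    have hC : ∀ c, V.valuation (ι (C c)) ≤ 1 := fun c => by rw [← hφC]; exact hV' _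
    -- the largest value
    obtain ⟨j, -, hj⟩ := Finset.exists_max_image (Finset.univ : Finset (Fin (N + 1)))
      (fun i => V.valuation (ι (X i))) ⟨0, Finset.mem_univ 0⟩
    obtain ⟨t, ht⟩ : ∃ t, t = V.valuation (ι (X j)) := ⟨_, rfl⟩
    have hle : ∀ i, V.valuation (ι (X i)) ≤ t := fun i => by
      rw [ht]; exact hj i (Finset.mem_univ i)
    by_contra hcon
    have ht1 : 1 < t := lt_of_lt_of_le (not_le.1 hcon) (hle i)
    have hx0 : V.valuation (ι (X 0)) ≤ 1 := by
      by_contra hx
      have h1 := hV' (X 0)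
      rw [hφX, h0, map_pow, map_pow] at h1
      exact absurd (one_lt_pow₀ (not_le.1 hx) (by omega)) (not_lt.2 h1)
    have hj0 : j ≠ 0 := by
      rintro rfl
      rw [ht] at ht1
      exact absurd hx0 (not_le.2 ht1)
    obtain ⟨a, ha⟩ := Fin.exists_succ_eq.2 hj0
    have hrv : ∀ b, V.valuation (ι (r b)) ≤ t ^ e := by
      intro b
      rw [(r b).as_sum, map_sum]
      refine Valuation.map_sum_le _ fun d hd => ?_
      rw [monomial_eq, map_mul, map_mul, Finsupp.prod, map_prod, map_prod]
      have h1 : ∏ i ∈ d.support, V.valuation (ι (X i ^ d i)) ≤ t ^ e := by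
        have h2 : ∏ i ∈ d.support, V.valuation (ι (X i ^ d i)) ≤ ∏ i ∈ d.support, t ^ d i := by
          refine Finset.prod_le_prod' fun i _ => ?_
          rw [map_pow, map_pow]
          exact pow_le_pow_left' (hle i) _
        rw [Finset.prod_pow_eq_pow_sum] at h2
        have h3 : ∑ i ∈ d.support, d i = e := by
          have h4 := (hr b) (mem_support_iff.1 hd)
          rw [← h4]
          simp [Finsupp.weight_apply, Finsupp.sum]
        rwa [h3] at h2
      calc _ ≤ 1 * t ^ e := mul_le_mul' (hC _) h1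
        _ = t ^ e := one_mul _
    -- solve for the power
    have hsolve : (X a.succ : MvPolynomial (Fin (N + 1)) k) ^ m =
        ∑ b, C (A⁻¹ a b) * (φ (X b.succ) - X 0 ^ (m - e) * r b) := by
      have h1 : ∀ b, φ (X b.succ) - X 0 ^ (m - e) * r b =
          ∑ c, C (A b c) * X c.succ ^ m := by
        intro b
        rw [hφX, hΦ]
        ring
      simp only [h1]
      calc (X a.succ : MvPolynomial (Fin (N + 1)) k) ^ m
          = ∑ c, C ((1 : Matrix (Fin N) (Fin N) k) a c) * X c.succ ^ m := by
            rw [Finset.sum_eq_single a]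
            · rw [Matrix.one_apply_eq, C_1, one_mul]
            · intro c _ hc
              rw [Matrix.one_apply_ne (Ne.symm hc), C_0, zero_mul]
            · intro h; exact absurd (Finset.mem_univ a) h
        _ = ∑ c, C ((A⁻¹ * A) a c) * X c.succ ^ m := by
            rw [Matrix.nonsing_inv_mul _ (isUnit_iff_ne_zero.2 hA)]
        _ = ∑ b, C (A⁻¹ a b) * ∑ c, C (A b c) * X c.succ ^ m := by
            simp only [Matrix.mul_apply, map_sum, Finset.sum_mul, Finset.mul_sum]
            rw [Finset.sum_comm]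
            refine Finset.sum_congr rfl fun b _ => Finset.sum_congr rfl fun c _ => ?_
            rw [C_mul]
            ring
    have hval : V.valuation (ι (X a.succ)) ^ m ≤ t ^ e := by
      rw [← map_pow, ← map_pow, hsolve, map_sum]
      refine Valuation.map_sum_le _ fun b _ => ?_
      rw [map_mul, map_mul, map_sub]
      have h1 : V.valuation (ι (φ (X b.succ)) - ι (X 0 ^ (m - e) * r b)) ≤ t ^ e := by
        refine (Valuation.map_sub _ _ _).trans (max_le ?_ ?_)
        · exact (hV' _).trans (one_le_pow_of_one_le' ht1.le e)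
        · rw [map_mul, map_mul, map_pow, map_pow]
          calc _ ≤ 1 * t ^ e := mul_le_mul' (pow_le_one' hx0 _) (hrv b)
            _ = t ^ e := one_mul _
      calc _ ≤ 1 * t ^ e := mul_le_mul' (hC _) h1
        _ = t ^ e := one_mul _
    rw [ha, ← ht] at hval
    exact absurd (pow_lt_pow_right₀ ht1 he) (not_lt.2 hval)
  have hint : φ.IsIntegral := by
    intro p
    induction p using MvPolynomial.induction_on with
    | C c => rw [← hφC]; exact φ.isIntegralElem_map
    | add p q hp hq => exact RingHom.IsIntegralElem.add φ hp hq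
    | mul_X p i hp => exact RingHom.IsIntegralElem.mul φ hp (hX i)
  have hft : φ.FiniteType := by
    have h1 : (φ.comp (C : k →+* MvPolynomial (Fin (N + 1)) k)).FiniteType := by
      have h2 : φ.comp (C : k →+* MvPolynomial (Fin (N + 1)) k) = C := by
        ext c
        rw [RingHom.comp_apply, hφC]
      rw [h2]
      rw [← MvPolynomial.algebraMap_eq, RingHom.finiteType_algebraMap]
      infer_instance
    exact RingHom.FiniteType.of_comp_finiteType h1
  rw [← hφ]
  exact hint.to_finite hft

end Pool.Agent.Lib.P62i
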