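import Pool.Agent.Lib.P62i.Defs

/-!
# Forms, their coefficients and their iterates
-/

namespace Pool.Agent.Lib.P62i

open MvPolynomial

/-- Exponents of monomials of degree at most `e` in `N` variables. -/
def Sx (N e : ℕ) : Type := {α : Fin N → Fin (e + 1) // ∑ a, (α a : ℕ) ≤ e}

instance (N e : ℕ) : Fintype (Sx N e) := by unfold Sx; infer_instance

instance (N e : ℕ) : DecidableEq (Sx N e) := by unfold Sx; infer_instance

/-- The exponents as natural numbers. -/
def exS {N e : ℕ} (s : Sx N e) : Fin N → ℕ := fun a => s.1 a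

theorem exS_sum {N e : ℕ} (s : Sx N e) : ∑ a, exS s a ≤ e := s.2

theorem exS_injective {N e : ℕ} : Function.Injective (exS (N := N) (e := e)) := by
  intro s s' h
  apply Subtype.ext
  funext a
  exact Fin.ext (congrFun h a)

theorem card_Sx (N e : ℕ) : Fintype.card (Sx N e) ≤ (e + 1) ^ N := by
  refine (Fintype.card_subtype_le _).trans ?_
  rw [Fintype.card_fun, Fintype.card_fin, Fintype.card_fin]

/-- The exponent vector of `X_0 ^ c * X ^ α`. -/
noncomputable def cns {N : ℕ} (c : ℕ) (α : Fin N → ℕ) : Fin (N + 1) →₀ ℕ :=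
  Finsupp.equivFunOnFinite.symm (Fin.cons c α)

theorem cns_zero {N : ℕ} (c : ℕ) (α : Fin N → ℕ) : cns c α 0 = c := rfl

theorem cns_succ {N : ℕ} (c : ℕ) (α : Fin N → ℕ) (a : Fin N) : cns c α a.succ = α a := rfl

theorem cns_injective {N : ℕ} {c c' : ℕ} {α α' : Fin N → ℕ} (h : cns c α = cns c' α') :
    α = α' := by
  funext a
  have h1 := DFunLike.congr_fun h a.succ
  exact h1

theorem cns_degree {N : ℕ} (c : ℕ) (α : Fin N → ℕ) :
    (cns c α).degree = c + ∑ a, α a := by
  rw [Finsupp.degree_eq_sum, Fin.sum_univ_succ]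
  rfl

section

variable {k K : Type*} [Field k] [Field K] [Algebra k K] {N : ℕ}

theorem aeval_cns (v : Fin (N + 1) → K) (c : ℕ) (α : Fin N → ℕ) (x : k) :
    aeval v (monomial (cns c α) x) =
      algebraMap k K x * (v 0 ^ c * mono (fun a => v a.succ) α) := by
  rw [aeval_monomial, Finsupp.prod_fintype _ _ (fun i => pow_zero _), Fin.prod_univ_succ]
  rfl

theorem form_eq {e : ℕ} {r : MvPolynomial (Fin (N + 1)) k} (hr : r.IsHomogeneous e) :
    r = ∑ s : Sx N e, monomial (cns (e - ∑ a, exS s a) (exS s))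
      (coeff (cns (e - ∑ a, exS s a) (exS s)) r) := by
  classical
  ext d
  rw [coeff_sum]
  simp only [coeff_monomial]
  by_cases hd : coeff d r = 0
  · rw [hd]
    symm
    refine Finset.sum_eq_zero fun s _ => ?_
    split_ifs with h
    · rw [h, hd]
    · rfl
  · have h1 : d.degree = e := by
      have h2 := hr hd
      rw [← h2]
      simp [Finsupp.degree_eq_sum, Finsupp.weight_apply, Finsupp.sum_fintype]
    rw [Finsupp.degree_eq_sum, Fin.sum_univ_succ] at h1
    have hle : ∀ a : Fin N, d a.succ < e + 1 := by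
      intro a
      have h2 := Finset.single_le_sum (f := fun a : Fin N => d a.succ) (fun _ _ => Nat.zero_le _)
        (Finset.mem_univ a)
      omega
    obtain ⟨s, hs⟩ : ∃ s : Sx N e, exS s = fun a => d a.succ :=
      ⟨⟨fun a => ⟨d a.succ, hle a⟩, by
        change ∑ a : Fin N, d a.succ ≤ e
        omega⟩, rfl⟩
    have hcns : cns (e - ∑ a, exS s a) (exS s) = d := by
      ext i
      refine Fin.cases ?_ (fun a => ?_) i
      · rw [cns_zero, hs]
        simp only
        omega
      · rw [cns_succ, hs]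
    rw [Finset.sum_eq_single s]
    · rw [if_pos hcns, hcns]
    · intro s' _ hs'
      rw [if_neg]
      intro h
      apply hs'
      apply exS_injective
      exact cns_injective (h.trans hcns.symm)
    · intro h
      exact absurd (Finset.mem_univ s) h

theorem aeval_form {e : ℕ} {r : MvPolynomial (Fin (N + 1)) k} (hr : r.IsHomogeneous e)
    (v : Fin (N + 1) → K) : aeval v r =
      ∑ s : Sx N e, algebraMap k K (coeff (cns (e - ∑ a, exS s a) (exS s)) r) *
        (v 0 ^ (e - ∑ a, exS s a) * mono (fun a => v a.succ) (exS s)) := by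
  conv_lhs => rw [form_eq hr]
  rw [map_sum]
  exact Finset.sum_congr rfl fun s _ => aeval_cns _ _ _ _

theorem aeval_iter (Φ : Fin (N + 1) → MvPolynomial (Fin (N + 1)) k) (i : ℕ) :
    ∀ (v : Fin (N + 1) → K) (p : MvPolynomial (Fin (N + 1)) k),
    aeval v ((fun p => aeval (R := k) Φ p)^[i] p) =
      aeval ((fun w : Fin (N + 1) → K => fun j => aeval w (Φ j))^[i] v) p := by
  induction i with
  | zero => intro v p; rfl
  | succ i ih =>
    intro v p
    rw [Function.iterate_succ_apply', Function.iterate_succ_apply]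
    have h1 : ∀ q : MvPolynomial (Fin (N + 1)) k, aeval v (aeval (R := k) Φ q) =
        aeval (fun j => aeval v (Φ j)) q := by
      intro q
      have h2 : (aeval (R := k) v).comp (aeval (R := k) Φ) =
          aeval (R := k) (fun j => aeval v (Φ j)) := by
        apply MvPolynomial.algHom_ext
        intro j
        rw [AlgHom.comp_apply, aeval_X, aeval_X]
      exact DFunLike.congr_fun h2 q
    rw [h1, ih]

theorem iter_homogeneous {m : ℕ} (Φ : Fin (N + 1) → MvPolynomial (Fin (N + 1)) k)
    (hhom : ∀ i, (Φ i).IsHomogeneous m) {p : MvPolynomial (Fin (N + 1)) k} {d : ℕ}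
    (hp : p.IsHomogeneous d) (i : ℕ) :
    ((fun p => aeval (R := k) Φ p)^[i] p).IsHomogeneous (m ^ i * d) := by
  induction i with
  | zero => rw [pow_zero, one_mul]; exact hp
  | succ i ih =>
    rw [Function.iterate_succ_apply', pow_succ', mul_assoc]
    exact ih.aeval Φ hhom

theorem det_homogeneous {r : ℕ} (M : Matrix (Fin r) (Fin r) (MvPolynomial (Fin (N + 1)) k))
    (d : Fin r → ℕ) (h : ∀ i j, (M i j).IsHomogeneous (d i)) :
    M.det.IsHomogeneous (∑ i, d i) := by
  rw [Matrix.det_apply]
  refine IsHomogeneous.sum _ _ _ fun σ _ => ?_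
  have h1 : (∏ i, M (σ i) i).IsHomogeneous (∑ i, d i) := by
    rw [← Equiv.sum_comp σ d]
    exact IsHomogeneous.prod _ _ _ fun i _ => h (σ i) i
  rcases Int.units_eq_one_or (Equiv.Perm.sign σ) with h2 | h2
  · rw [h2, one_smul]; exact h1
  · rw [h2, Units.neg_smul, one_smul]; exact h1.neg

theorem eval_smul_form {p : MvPolynomial (Fin (N + 1)) k} {d : ℕ} (hp : p.IsHomogeneous d)
    (c : K) (v : Fin (N + 1) → K) : aeval (c • v) p = c ^ d * aeval v p := by
  rw [p.as_sum, map_sum, map_sum, Finset.mul_sum]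
  refine Finset.sum_congr rfl fun s hs => ?_
  rw [aeval_monomial, aeval_monomial]
  have h1 : ∑ i ∈ s.support, s i = d := by
    rw [← hp (mem_support_iff.1 hs)]
    simp [Finsupp.weight_apply, Finsupp.sum]
  have h2 : (s.prod fun i n => (c • v) i ^ n) = c ^ d * s.prod fun i n => v i ^ n := by
    rw [Finsupp.prod, Finsupp.prod, ← h1, ← Finset.prod_pow_eq_pow_sum, ← Finset.prod_mul_distrib]
    exact Finset.prod_congr rfl fun i _ => by rw [Pi.smul_apply, smul_eq_mul, mul_pow]
  rw [h2]
  ring

end

end Pool.Agent.Lib.P62i
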