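import Pool.Agent.Lib.P62i.Defs

/-!
# From a nonvanishing determinant to `Wide`
-/

namespace Pool.Agent.Lib.P62i

open MvPolynomial

theorem xt_injective {N m : ℕ} (hm : 1 ≤ m) {S : Type} (ex : S → Fin N → ℕ)
    (hinj : Function.Injective ex) (hlt : ∀ s, ∑ a, ex s a < m) :
    Function.Injective (xt ex m) := by
  classical
  have hs : ∀ b : Fin N, ∑ a, (Pi.single b m : Fin N → ℕ) a = m := by
    intro b
    rw [Finset.sum_eq_single b]
    · rw [Pi.single_eq_same]
    · intro a _ hab
      rw [Pi.single_eq_of_ne hab]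
    · intro h
      exact absurd (Finset.mem_univ b) h
  rintro (b | s) (b' | s') h
  · simp only [xt_inl] at h
    by_cases hbb : b = b'
    · rw [hbb]
    · have h1 := congrFun h b
      rw [Pi.single_eq_same, Pi.single_eq_of_ne hbb] at h1
      omega
  · simp only [xt_inl, xt_inr] at h
    have h1 := hs b
    rw [h] at h1
    exact absurd h1 (hlt s').ne
  · simp only [xt_inl, xt_inr] at h
    have h1 := hs b'
    rw [← h] at h1
    exact absurd h1 (hlt s).ne
  · simp only [xt_inr] at h
    rw [hinj h]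

/-- The polynomial with the given coefficients. -/
noncomputable def pol {L : Type*} [Field L] {N : ℕ} {T : Type*} [Fintype T]
    (xs : T → Fin N → ℕ) (c : T → L) : MvPolynomial (Fin N) L :=
  ∑ t, monomial (Finsupp.equivFunOnFinite.symm (xs t)) (c t)

theorem eval_pol {L : Type*} [Field L] {N : ℕ} {T : Type*} [Fintype T]
    (xs : T → Fin N → ℕ) (c : T → L) (x : Fin N → L) :
    eval x (pol xs c) = ∑ t, c t * mono x (xs t) := by
  rw [pol, map_sum]
  refine Finset.sum_congr rfl fun t _ => ?_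
  rw [eval_monomial, mono, Finsupp.prod_fintype _ _ (fun i => pow_zero _)]
  rfl

theorem pol_ne_zero {L : Type*} [Field L] {N : ℕ} {T : Type*} [Fintype T]
    (xs : T → Fin N → ℕ) (hxs : Function.Injective xs) (c : T → L) (hc : c ≠ 0) :
    pol xs c ≠ 0 := by
  classical
  intro h
  apply hc
  funext t
  have h1 := congrArg (coeff (Finsupp.equivFunOnFinite.symm (xs t))) h
  rw [pol, coeff_sum, Finset.sum_eq_single t, coeff_monomial, if_pos rfl, coeff_zero] at h1
  · exact h1
  · intro t' _ ht'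
    rw [coeff_monomial, if_neg]
    intro h2
    exact ht' (hxs (Finsupp.equivFunOnFinite.symm.injective h2))
  · intro h2
    exact absurd (Finset.mem_univ t) h2

theorem wide_of_det {L : Type*} [Field L] {N m : ℕ} (hm : 1 ≤ m) {S : Type} [Fintype S]
    (ex : S → Fin N → ℕ) (hinj : Function.Injective ex) (hlt : ∀ s, ∑ a, ex s a < m) {r : ℕ}
    (en : Fin r → Fin N → ℕ)
    (hen : ∀ t t' : Fin N ⊕ S, ∃ i, en i = xt ex m t + xt ex m t') (y : Fin r → Fin N → L)
    (hdet : (Matrix.of fun i j => mono (y i) (en j)).det ≠ 0) : Wide ex m y := by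
  classical
  intro c c' hc hc'
  by_contra hcon
  push Not at hcon
  have hxt := xt_injective hm ex hinj hlt
  have hprod : pol (xt ex m) c * pol (xt ex m) c' ≠ 0 :=
    mul_ne_zero (pol_ne_zero _ hxt c hc) (pol_ne_zero _ hxt c' hc')
  choose idx hidx using hen
  obtain ⟨d, hd⟩ : ∃ d : Fin r → L, d = fun i =>
      ∑ p ∈ Finset.univ.filter (fun p : (Fin N ⊕ S) × (Fin N ⊕ S) => idx p.1 p.2 = i),
        c p.1 * c' p.2 := ⟨_, rfl⟩
  have hpd : pol (xt ex m) c * pol (xt ex m) c' = pol en d := by
    rw [pol, pol, pol, Finset.sum_mul_sum, ← Finset.sum_product', ← Finset.univ_product_univ.symm,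
      ← Finset.sum_fiberwise (s := Finset.univ)
        (g := fun p : (Fin N ⊕ S) × (Fin N ⊕ S) => idx p.1 p.2)]
    refine Finset.sum_congr rfl fun i _ => ?_
    rw [hd, map_sum]
    refine Finset.sum_congr rfl fun p hp => ?_
    rw [monomial_mul]
    have h1 : Finsupp.equivFunOnFinite.symm (xt ex m p.1) +
        Finsupp.equivFunOnFinite.symm (xt ex m p.2) = Finsupp.equivFunOnFinite.symm (en i) := by
      rw [← (Finset.mem_filter.1 hp).2, hidx]
      ext a
      rfl
    rw [h1]
  have hd0 : d = 0 := by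
    by_contra hne
    apply hdet
    refine Matrix.exists_mulVec_eq_zero_iff.1 ⟨d, hne, ?_⟩
    funext i
    rw [Pi.zero_apply]
    change ∑ j, mono (y i) (en j) * d j = 0
    have h1 : ∑ j, mono (y i) (en j) * d j = eval (y i) (pol en d) := by
      rw [eval_pol]
      exact Finset.sum_congr rfl fun j _ => mul_comm _ _
    rw [h1, ← hpd, map_mul, eval_pol, eval_pol]
    simp only [mono_xt]
    by_cases h2 : ∑ t, c t * ft ex m (y i) t = 0
    · rw [h2, zero_mul]
    · rw [hcon i h2, mul_zero]
  apply hprod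
  rw [hpd, hd0, pol]
  simp

theorem wide_mono {L : Type*} [CommRing L] {N m : ℕ} {S : Type} [Fintype S]
    (ex : S → Fin N → ℕ) {I J : Type*} (y : I → Fin N → L) (y' : J → Fin N → L)
    (h : ∀ i, ∃ j, y' j = y i) (hw : Wide ex m y) : Wide ex m y' := by
  intro c c' hc hc'
  obtain ⟨i, h1, h2⟩ := hw c c' hc hc'
  obtain ⟨j, hj⟩ := h i
  exact ⟨j, by rwa [hj], by rwa [hj]⟩

end Pool.Agent.Lib.P62i
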