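import Pool.Agent.Lib.P62i.Red3
import Pool.Agent.Lib.P62i.Fix
import Pool.Agent.Lib.P62i.Fnt
import Pool.Agent.Lib.P62i.Wid
import Pool.Agent.Lib.P62i.Hom

/-!
# The exceptional hypersurface and the main dichotomy
-/

namespace Pool.Agent.Lib.P62i

open MvPolynomial IntermediateField

/-- The exponents of the products of two features. -/
def EE (N e m : ℕ) : Finset (Fin N → ℕ) :=
  Finset.univ.image fun p : (Fin N ⊕ Sx N e) × (Fin N ⊕ Sx N e) => xt exS m p.1 + xt exS m p.2

/-- An enumeration of the exponents. -/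
noncomputable def enE (N e m : ℕ) (j : Fin (EE N e m).card) : Fin N → ℕ :=
  ((EE N e m).equivFin.symm j).1

theorem enE_injective (N e m : ℕ) : Function.Injective (enE N e m) :=
  Subtype.val_injective.comp (EE N e m).equivFin.symm.injective

theorem enE_surj (N e m : ℕ) (t t' : Fin N ⊕ Sx N e) :
    ∃ i, enE N e m i = xt exS m t + xt exS m t' := by
  have h : xt exS m t + xt exS m t' ∈ EE N e m :=
    Finset.mem_image.2 ⟨(t, t'), Finset.mem_univ _, rfl⟩
  exact ⟨(EE N e m).equivFin ⟨_, h⟩, by rw [enE, Equiv.symm_apply_apply]⟩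

theorem xt_sum_le {N e m : ℕ} (he : e ≤ m) (t : Fin N ⊕ Sx N e) : ∑ a, xt exS m t a ≤ m := by
  rcases t with b | s
  · rw [xt_inl, Finset.sum_eq_single b]
    · rw [Pi.single_eq_same]
    · intro a _ hab
      rw [Pi.single_eq_of_ne hab]
    · intro h
      exact absurd (Finset.mem_univ b) h
  · exact (exS_sum s).trans he

theorem enE_le {N e m : ℕ} (he : e ≤ m) (j : Fin (EE N e m).card) :
    ∑ a, enE N e m j a ≤ 2 * m := by
  obtain ⟨p, -, hp⟩ := Finset.mem_image.1 ((EE N e m).equivFin.symm j).2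
  rw [enE, ← hp]
  simp only [Pi.add_apply, Finset.sum_add_distrib]
  have h1 := xt_sum_le he p.1
  have h2 := xt_sum_le he p.2
  omega

section

variable {k : Type*} [Field k]

/-- The monomials of degree `2 m` (in `X_0, …, X_N`) of the products of two features. -/
noncomputable def psi (k : Type*) [Field k] (N e m : ℕ) (j : Fin (EE N e m).card) :
    MvPolynomial (Fin (N + 1)) k :=
  monomial (cns (2 * m - ∑ a, enE N e m j a) (enE N e m j)) 1

theorem psi_indep (N e m : ℕ) : LinearIndependent k (psi k N e m) := by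
  have h1 := (MvPolynomial.basisMonomials (Fin (N + 1)) k).linearIndependent
  rw [MvPolynomial.coe_basisMonomials] at h1
  refine h1.comp (fun j => cns (2 * m - ∑ a, enE N e m j a) (enE N e m j)) ?_
  intro i j h
  exact enE_injective N e m (cns_injective h)

/-- The Casoratian. -/
noncomputable def G1 {N : ℕ} (e m : ℕ) (Φ : Fin (N + 1) → MvPolynomial (Fin (N + 1)) k) :
    MvPolynomial (Fin (N + 1)) k :=
  (Matrix.of fun i j : Fin (EE N e m).card =>
    (fun p => aeval (R := k) Φ p)^[(i : ℕ)] (psi k N e m j)).det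

theorem G1_ne_zero {N e m : ℕ} (hm : 2 ≤ m) (he : e < m) (Φ : Fin (N + 1) → MvPolynomial (Fin (N + 1)) k)
    (hhom : ∀ i, (Φ i).IsHomogeneous m) (h0 : Φ 0 = X 0 ^ m)
    (A : Matrix (Fin N) (Fin N) k) (hA : A.det ≠ 0) (r : Fin N → MvPolynomial (Fin (N + 1)) k)
    (hr : ∀ a, (r a).IsHomogeneous e)
    (hΦ : ∀ a, Φ a.succ = ∑ b, C (A a b) * X b.succ ^ m + X 0 ^ (m - e) * r a) :
    G1 e m Φ ≠ 0 :=
  caso_ne_zero hm hhom (finite_of_power he Φ h0 A hA r hr hΦ) _ (psi_indep N e m)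

theorem G1_homogeneous {N e m : ℕ} (he : e ≤ m) (Φ : Fin (N + 1) → MvPolynomial (Fin (N + 1)) k)
    (hhom : ∀ i, (Φ i).IsHomogeneous m) :
    (G1 e m Φ).IsHomogeneous (∑ i : Fin (EE N e m).card, m ^ (i : ℕ) * (2 * m)) := by
  refine det_homogeneous _ _ fun i j => ?_
  refine iter_homogeneous Φ hhom ?_ i
  refine isHomogeneous_monomial _ ?_
  rw [cns_degree]
  have := enE_le he j
  omega

/-- The coefficient of the form `r` of degree `e` at `X_0 ^ (e - |s|) X ^ s`. -/
noncomputable def cf {N e : ℕ} (r : MvPolynomial (Fin (N + 1)) k) (s : Sx N e) : k :=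
  coeff (cns (e - ∑ a, exS s a) (exS s)) r

/-- The map in the chart `X_0 = 1`. -/
noncomputable def affm (K : Type*) [Field K] [Algebra k K] {N : ℕ} (e m : ℕ)
    (A : Matrix (Fin N) (Fin N) k) (r : Fin N → MvPolynomial (Fin (N + 1)) k) :
    (Fin N → K) → Fin N → K :=
  lac (S := Sx N e) exS m (fun a b => algebraMap k K (A a b))
    (fun a s => algebraMap k K (cf (r a) s))

/-- The homogeneous map in the chart `X_0 = 1`. -/
theorem step_cons {K : Type*} [Field K] [Algebra k K] {N e m : ℕ}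
    (Φ : Fin (N + 1) → MvPolynomial (Fin (N + 1)) k) (h0 : Φ 0 = X 0 ^ m)
    (A : Matrix (Fin N) (Fin N) k) (r : Fin N → MvPolynomial (Fin (N + 1)) k)
    (hr : ∀ a, (r a).IsHomogeneous e)
    (hΦ : ∀ a, Φ a.succ = ∑ b, C (A a b) * X b.succ ^ m + X 0 ^ (m - e) * r a) (x : Fin N → K) :
    (fun j => aeval (Fin.cons 1 x : Fin (N + 1) → K) (Φ j)) =
      Fin.cons 1 (affm K e m A r x) := by
  funext j
  refine Fin.cases ?_ (fun a => ?_) j
  · rw [h0, map_pow, aeval_X, Fin.cons_zero, Fin.cons_zero, one_pow]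
  · rw [hΦ, map_add, map_mul, map_pow, aeval_X, Fin.cons_zero, one_pow, one_mul, map_sum,
      Fin.cons_succ, affm, lac, aeval_form (hr a)]
    congr 1
    · refine Finset.sum_congr rfl fun b _ => ?_
      rw [map_mul, map_pow, aeval_X, aeval_C, Fin.cons_succ]
    · refine Finset.sum_congr rfl fun s _ => ?_
      rw [Fin.cons_zero, one_pow, one_mul]
      rfl

theorem iter_cons {K : Type*} [Field K] [Algebra k K] {N e m : ℕ}
    (Φ : Fin (N + 1) → MvPolynomial (Fin (N + 1)) k) (h0 : Φ 0 = X 0 ^ m)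
    (A : Matrix (Fin N) (Fin N) k) (r : Fin N → MvPolynomial (Fin (N + 1)) k)
    (hr : ∀ a, (r a).IsHomogeneous e)
    (hΦ : ∀ a, Φ a.succ = ∑ b, C (A a b) * X b.succ ^ m + X 0 ^ (m - e) * r a) (i : ℕ) :
    ∀ (x : Fin N → K),
    (fun w : Fin (N + 1) → K => fun j => aeval w (Φ j))^[i] (Fin.cons 1 x) =
      Fin.cons 1 ((affm K e m A r)^[i] x) := by
  induction i with
  | zero => intro x; rfl
  | succ i ih =>
    intro x
    rw [Function.iterate_succ_apply, step_cons Φ h0 A r hr hΦ, ih]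
    rfl

end

universe u w

theorem key {F : Type w} {K : Type u} {k : Type*} [Field F] [IsAlgClosed F] [CharZero F] [Field K]
    [Algebra F K] [Field k] [Algebra k K] (u : K) (hu : Transcendental F u) {n e m N : ℕ}
    (hpos : 0 < Module.finrank F⟮u⟯ K) (hn : Module.finrank F⟮u⟯ K ≤ n) (hm1 : 1 ≤ m) (he : e < m)
    (hm : 2 * KK (Fintype.card (Fin N ⊕ Sx N e))
      (2 * (Fintype.card (Fin N ⊕ Sx N e) * (N * (e + 1)))) n < m)
    (Φ : Fin (N + 1) → MvPolynomial (Fin (N + 1)) k) (h0 : Φ 0 = X 0 ^ m)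
    (A : Matrix (Fin N) (Fin N) k) (hA : A.det ≠ 0) (r : Fin N → MvPolynomial (Fin (N + 1)) k)
    (hr : ∀ a, (r a).IsHomogeneous e)
    (hΦ : ∀ a, Φ a.succ = ∑ b, C (A a b) * X b.succ ^ m + X 0 ^ (m - e) * r a) (x : Fin N → K)
    (hfin : (Set.range fun i : ℕ => (affm K e m A r)^[i] x).Finite)
    (hG : aeval (Fin.cons 1 x : Fin (N + 1) → K) (G1 e m Φ) ≠ 0) :
    ∃ (s : Fin N → K) (A0 : Matrix (Fin N) (Fin N) F) (q0 : Fin N → Sx N e → F),
      (∀ a, s a ≠ 0) ∧ A0.det ≠ 0 ∧
      (∀ a b, algebraMap k K (A a b) * s b ^ m = s a * algebraMap F K (A0 a b)) ∧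
      ∀ a t, algebraMap k K (cf (r a) t) * mono s (exS t) = s a * algebraMap F K (q0 a t) := by
  classical
  obtain ⟨f, hf⟩ : ∃ f : (Fin N → K) → (Fin N → K), f = affm K e m A r := ⟨_, rfl⟩
  rw [← hf] at hfin
  have hAK : (Matrix.of fun a b => algebraMap k K (A a b)).det ≠ 0 := by
    have h1 : (Matrix.of fun a b => algebraMap k K (A a b)) = (algebraMap k K).mapMatrix A := rfl
    rw [h1, ← RingHom.map_det]
    exact (map_ne_zero _).2 hA
  have hwide : Wide (S := Sx N e) exS m fun i : Fin (EE N e m).card => f^[(i : ℕ)] x := by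
    refine wide_of_det hm1 exS exS_injective (fun s => (exS_sum s).trans_lt he) (enE N e m)
      (enE_surj N e m) _ ?_
    rw [G1, AlgHom.map_det] at hG
    have h1 : (AlgHom.mapMatrix (aeval (Fin.cons 1 x : Fin (N + 1) → K)))
        (Matrix.of fun i j : Fin (EE N e m).card =>
          (fun p => aeval (R := k) Φ p)^[(i : ℕ)] (psi k N e m j)) =
        Matrix.of fun i j : Fin (EE N e m).card => mono (f^[(i : ℕ)] x) (enE N e m j) := by
      ext i j
      rw [AlgHom.mapMatrix_apply, Matrix.map_apply, Matrix.of_apply, Matrix.of_apply, aeval_iter,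
        iter_cons Φ h0 A r hr hΦ, ← hf, psi, aeval_cns, map_one, one_mul, Fin.cons_zero,
        one_pow, one_mul]
      rfl
    rw [h1] at hG
    exact hG
  obtain ⟨J, hJ⟩ : ∃ J : Set (Fin N → K), J = Set.range fun i : ℕ => f^[i] x := ⟨_, rfl⟩
  rw [← hJ] at hfin
  have hJf : Finite J := hfin
  have hτ : ∀ j : J, f j ∈ J := by
    rintro ⟨z, hz⟩
    obtain ⟨i, hi⟩ : ∃ i : ℕ, f^[i] x = z := by
      rw [hJ] at hz
      exact hz
    change f z ∈ J
    rw [hJ, ← hi]
    exact ⟨i + 1, by simp only [Function.iterate_succ_apply']⟩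
  refine invariant3 (F := F) u hu exS (fun s => exS_sum s) hpos hn hm
    (Matrix.of fun a b => algebraMap k K (A a b)) hAK
    (fun a s => algebraMap k K (cf (r a) s)) (fun j : J => (⟨f j, hτ j⟩ : J))
    (fun j => (j : Fin N → K)) (fun j => ?_) (wide_mono exS _ _ (fun i => ?_) hwide)
  · change f j = _
    rw [hf]
    rfl
  · exact ⟨⟨f^[(i : ℕ)] x, by rw [hJ]; exact ⟨i, rfl⟩⟩, rfl⟩

end Pool.Agent.Lib.P62i
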