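import Pool.Agent.Lib.P62i.Defs

/-!
# Choosing a basis among the rows
-/

namespace Pool.Agent.Lib.P62i

open Matrix

theorem exists_basis {L : Type*} [Field L] {T : Type*} [Fintype T] [DecidableEq T] {J : Type*}
    (φ : J → T → L) (X : Set J)
    (h : ∀ c : T → L, c ≠ 0 → ∃ j ∈ X, ∑ t, c t * φ j t ≠ 0) :
    ∃ p : T → J, (∀ t, p t ∈ X) ∧ (Matrix.of fun t => φ (p t)).det ≠ 0 := by
  classical
  have hspan : Submodule.span L (Set.range fun j : X => φ j) = ⊤ := by
    by_contra hne
    obtain ⟨f, hf0, hf⟩ := Submodule.exists_le_ker_of_lt_top _ (lt_top_iff_ne_top.2 hne)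
    have hfs : ∀ v : T → L, f v = ∑ t, f (Pi.single t 1) * v t := by
      intro v
      conv_lhs => rw [← Finset.univ_sum_single v]
      rw [map_sum]
      refine Finset.sum_congr rfl fun t _ => ?_
      have h1 : (Pi.single t (v t) : T → L) = v t • Pi.single t (1 : L) := by
        rw [← Pi.single_smul, smul_eq_mul, mul_one]
      rw [h1, map_smul, smul_eq_mul, mul_comm]
    obtain ⟨j, hj, hne'⟩ := h (fun t => f (Pi.single t 1)) (by
      intro h0
      apply hf0
      ext v
      simp only [LinearMap.coe_comp, Function.comp_apply, LinearMap.zero_comp,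
        LinearMap.zero_apply]
      exact congrFun h0 v)
    apply hne'
    rw [← hfs]
    exact hf (Submodule.subset_span ⟨⟨j, hj⟩, rfl⟩)
  obtain ⟨κ, a, ha, hsp, hli⟩ := exists_linearIndependent' L (fun j : X => φ j)
  rw [hspan] at hsp
  have hb : ⊤ ≤ Submodule.span L (Set.range ((fun j : X => φ j) ∘ a)) := hsp.ge
  let b := Module.Basis.mk hli hb
  have : Finite κ := Module.Finite.finite_basis b
  have : Fintype κ := Fintype.ofFinite κ
  have hcard : Fintype.card T = Fintype.card κ := by
    rw [← Module.finrank_eq_card_basis b, Module.finrank_fintype_fun_eq_card]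
  let e : T ≃ κ := Fintype.equivOfCardEq hcard
  refine ⟨fun t => (a (e t) : J), fun t => (a (e t)).2, ?_⟩
  have hli' : LinearIndependent L (fun t => φ (a (e t))) := hli.comp e e.injective
  have h2 : IsUnit (Matrix.of fun t => φ (a (e t))) :=
    Matrix.linearIndependent_rows_iff_isUnit.1 hli'
  exact ((Matrix.isUnit_iff_isUnit_det _).1 h2).ne_zero

end Pool.Agent.Lib.P62i
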