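import Mathlib

/-!
# The Casoratian criterion for linear dependence over the fixed field of an endomorphism
-/

namespace Pool.Agent.Lib.P62i

open Matrix

theorem caso {M : Type*} [Field M] (σ : M →+* M) : ∀ {r : ℕ} (φ : Fin r → M),
    (Matrix.of fun i j : Fin r => (fun x => σ x)^[(i : ℕ)] (φ j)).det = 0 →
    ∃ c : Fin r → M, c ≠ 0 ∧ (∀ j, σ (c j) = c j) ∧ ∑ j, c j * φ j = 0 := by
  intro r
  induction r with
  | zero =>
    intro φ h
    rw [Matrix.det_isEmpty] at h
    exact absurd h one_ne_zero
  | succ r ih =>
    intro φ h
    by_cases h0 : (Matrix.of fun i j : Fin r =>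
        (fun x => σ x)^[(i : ℕ)] (φ j.castSucc)).det = 0
    · obtain ⟨c, hc, hfix, hsum⟩ := ih _ h0
      refine ⟨Fin.snoc c 0, ?_, ?_, ?_⟩
      · intro h1
        apply hc
        funext j
        have h2 := congrFun h1 j.castSucc
        rwa [Fin.snoc_castSucc] at h2
      · intro j
        refine Fin.lastCases ?_ (fun j => ?_) j
        · rw [Fin.snoc_last, map_zero]
        · rw [Fin.snoc_castSucc, hfix]
      · rw [Fin.sum_univ_castSucc, Fin.snoc_last, zero_mul, add_zero]
        rw [← hsum]
        exact Finset.sum_congr rfl fun j _ => by rw [Fin.snoc_castSucc]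
    · obtain ⟨a, ha, ha0⟩ := Matrix.exists_mulVec_eq_zero_iff.2 h
      have hrel : ∀ i : ℕ, i < r + 1 → ∑ j, (fun x => σ x)^[i] (φ j) * a j = 0 :=
        fun i hi => congrFun ha0 (⟨i, hi⟩ : Fin (r + 1))
      -- the last coefficient is nonzero
      have hlast : a (Fin.last r) ≠ 0 := by
        intro hl
        apply h0
        refine Matrix.exists_mulVec_eq_zero_iff.1 ⟨fun j => a j.castSucc, ?_, ?_⟩
        · intro h1
          apply ha
          funext j
          refine Fin.lastCases ?_ (fun j => ?_) j
          · exact hl
          · exact congrFun h1 j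
        · funext i
          have h2 := hrel i (by omega)
          rw [Fin.sum_univ_castSucc, hl, mul_zero, add_zero] at h2
          exact h2
      obtain ⟨b, hb⟩ : ∃ b : Fin (r + 1) → M, b = fun j => a j / a (Fin.last r) := ⟨_, rfl⟩
      have hblast : b (Fin.last r) = 1 := by rw [hb]; exact div_self hlast
      have hrelb : ∀ i : ℕ, i < r + 1 → ∑ j, (fun x => σ x)^[i] (φ j) * b j = 0 := by
        intro i hi
        have h2 : ∑ j, (fun x => σ x)^[i] (φ j) * b j =
            (∑ j, (fun x => σ x)^[i] (φ j) * a j) / a (Fin.last r) := by
          rw [Finset.sum_div]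
          exact Finset.sum_congr rfl fun j _ => by rw [hb]; ring
        rw [h2, hrel i hi, zero_div]
      -- the coefficients are fixed
      have hdiff : ∀ i : ℕ, i < r →
          ∑ j : Fin r, (fun x => σ x)^[i + 1] (φ j.castSucc) *
            (σ (b j.castSucc) - b j.castSucc) = 0 := by
        intro i hi
        have h2 := hrelb (i + 1) (by omega)
        have h3 := congrArg σ (hrelb i (by omega))
        rw [map_zero, map_sum] at h3
        have h4 : ∑ j, σ ((fun x => σ x)^[i] (φ j) * b j) =
            ∑ j, (fun x => σ x)^[i + 1] (φ j) * σ (b j) := by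
          refine Finset.sum_congr rfl fun j _ => ?_
          rw [map_mul, Function.iterate_succ_apply']
        rw [h4] at h3
        rw [Fin.sum_univ_castSucc, hblast] at h2
        rw [Fin.sum_univ_castSucc, hblast, map_one] at h3
        have h5 : ∑ j : Fin r, (fun x => σ x)^[i + 1] (φ j.castSucc) *
            (σ (b j.castSucc) - b j.castSucc) =
            ∑ j : Fin r, (fun x => σ x)^[i + 1] (φ j.castSucc) * σ (b j.castSucc) -
            ∑ j : Fin r, (fun x => σ x)^[i + 1] (φ j.castSucc) * b j.castSucc := by
          rw [← Finset.sum_sub_distrib]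
          exact Finset.sum_congr rfl fun j _ => by ring
        rw [h5]
        linear_combination h3 - h2
      have hfix : ∀ j : Fin r, σ (b j.castSucc) = b j.castSucc := by
        have h2 : (fun j : Fin r => σ (b j.castSucc) - b j.castSucc) = 0 := by
          by_contra hne
          have h3 : (Matrix.of fun i j : Fin r =>
              (fun x => σ x)^[(i : ℕ) + 1] (φ j.castSucc)).det = 0 := by
            refine Matrix.exists_mulVec_eq_zero_iff.1 ⟨_, hne, ?_⟩
            funext i
            exact hdiff i i.2
          have h4 : (Matrix.of fun i j : Fin r =>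
              (fun x => σ x)^[(i : ℕ) + 1] (φ j.castSucc)).det =
              σ (Matrix.of fun i j : Fin r => (fun x => σ x)^[(i : ℕ)] (φ j.castSucc)).det := by
            rw [RingHom.map_det]
            congr 1
            ext i j
            rw [Matrix.of_apply, Function.iterate_succ_apply']
            rfl
          rw [h4, map_eq_zero] at h3
          exact h0 h3
        intro j
        exact sub_eq_zero.1 (congrFun h2 j)
      refine ⟨b, ?_, ?_, ?_⟩
      · intro h1
        have h2 := congrFun h1 (Fin.last r)
        rw [hblast] at h2
        exact one_ne_zero h2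
      · intro j
        refine Fin.lastCases ?_ (fun j => ?_) j
        · rw [hblast, map_one]
        · exact hfix j
      · have h2 := hrelb 0 (by omega)
        rw [← h2]
        exact Finset.sum_congr rfl fun j _ => by rw [mul_comm]; rfl

end Pool.Agent.Lib.P62i
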