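import Pool.Agent.Lib.P62i.MinP
import Pool.Agent.Lib.P62h.BmH

/-!
# The closeness lemma

If `z ^ m = ∑ β t * p t ^ m` with elements of small height, then `z` is close to one of the `p t`.
-/

namespace Pool.Agent.Lib.P62i

open WithZero Pool.Agent.Lib.P62g Pool.Agent.Lib.P62h

universe u w

variable {F : Type w} {L : Type u} [Field F] [Field L] [Algebra F L] {G : Geo F L}

theorem IsUn_neg {x : L} (hx : IsUn G x) : IsUn G (-x) :=
  ⟨neg_ne_zero.2 hx.1, G.Inf.neg_mem hx.2.1, by rw [inv_neg]; exact G.Inf.neg_mem hx.2.2⟩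

theorem h_neg (x : L) : G.h (-x) = G.h x := by
  rw [Geo.h, Geo.h]
  simp only [Geo.ord_neg]

/-- The support of an element which is zero or a unit at infinity. -/
theorem supp_card' {x : L} (hx : x ≠ 0 → IsUn G x) {b : ℤ} (hb : 0 ≤ b)
    (h : x ≠ 0 → G.h x ≤ b) :
    ∃ S : Finset G.Pl, (∀ p ∉ S, G.ord p x = 0) ∧ (S.card : ℤ) ≤ 2 * b := by
  by_cases h0 : x = 0
  · refine ⟨∅, fun p _ => ?_, by simpa using hb⟩
    rw [h0, Geo.ord_zero]
  · obtain ⟨S, h1, h2⟩ := supp_card (hx h0)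
    exact ⟨S, h1, h2.trans (by linarith [h h0])⟩

theorem close {T : Type*} [Fintype T] {m B C : ℕ} {R : ℤ} (hR : 0 ≤ R)
    (z : L) (hz : IsUn G z) (p β : T → L) (hp : ∀ t, p t ≠ 0 → IsUn G (p t))
    (hβ : ∀ t, β t ≠ 0 → IsUn G (β t)) (hm : 1 ≤ m) (hrel : z ^ m = ∑ t, β t * p t ^ m)
    (hzR : G.h z ≤ R) (hpR : ∀ t, p t ≠ 0 → G.h (p t) ≤ R)
    (hβR : ∀ t, β t ≠ 0 → G.h (β t) ≤ B * R) (hκ : (G.κ : ℤ) ≤ 2 * C * R) :
    ∃ t, p t ≠ 0 ∧ m * G.h (z / p t) ≤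
      ((Fintype.card T ^ 2 * (C + 1 + Fintype.card T + Fintype.card T * B) + B : ℕ) : ℤ) * R := by
  classical
  obtain ⟨W, hW⟩ : ∃ W, W = Fintype.card T := ⟨_, rfl⟩
  rw [← hW]
  -- the nonzero terms
  obtain ⟨n, hn⟩ : ∃ n, n = Fintype.card {t : T // β t * p t ^ m ≠ 0} := ⟨_, rfl⟩
  let ε : {t : T // β t * p t ^ m ≠ 0} ≃ Fin n := Fintype.equivFinOfCardEq hn.symm
  have hnW : n ≤ W := by
    rw [hn, hW]
    exact Fintype.card_subtype_le _
  obtain ⟨x, hxd⟩ : ∃ x : Fin (n + 1) → L, x = Fin.cases (z ^ m)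
      (fun j => -(β (ε.symm j).1 * p (ε.symm j).1 ^ m)) := ⟨_, rfl⟩
  have hx0 : x 0 = z ^ m := by rw [hxd]; rfl
  have hxs : ∀ j : Fin n, x j.succ = -(β (ε.symm j).1 * p (ε.symm j).1 ^ m) := by
    intro j; rw [hxd]; rfl
  have hβ0 : ∀ j : Fin n, β (ε.symm j).1 ≠ 0 := fun j => left_ne_zero_of_mul (ε.symm j).2
  have hp0 : ∀ j : Fin n, p (ε.symm j).1 ≠ 0 := by
    intro j h0
    apply (ε.symm j).2
    rw [h0, zero_pow (by omega), mul_zero]
  have hxU : ∀ t, IsUn G (x t) := by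
    intro t
    refine Fin.cases ?_ (fun j => ?_) t
    · rw [hx0]; exact hz.pow m
    · rw [hxs]
      exact IsUn_neg ((hβ _ (hβ0 j)).mul ((hp _ (hp0 j)).pow m))
  have hsum : ∑ t, x t = 0 := by
    rw [Fin.sum_univ_succ, hx0]
    have h1 : ∑ j : Fin n, x j.succ = -∑ t, β t * p t ^ m := by
      simp only [hxs]
      rw [Finset.sum_neg_distrib]
      congr 1
      rw [Equiv.sum_comp ε.symm (fun t : {t : T // β t * p t ^ m ≠ 0} => β t.1 * p t.1 ^ m)]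
      exact (Finset.sum_subtype (Finset.univ.filter fun t => β t * p t ^ m ≠ 0) (by simp)
        (fun t => β t * p t ^ m)).symm.trans (Finset.sum_filter_ne_zero Finset.univ)
    rw [h1, hrel, add_neg_cancel]
  obtain ⟨s, e, c, hs, hsn, he0, hc, hrel', hwr⟩ :=
    exists_pinrel G.θ G.θ_ker x (fun t => (hxU t).1) hsum
  -- the index of another term
  obtain ⟨t1, ht1⟩ : ∃ t1 : Fin (s + 1), t1 ≠ 0 :=
    ⟨⟨1, by omega⟩, by intro h; exact absurd (congrArg Fin.val h) (by simp)⟩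
  have het1 : e t1 ≠ 0 := by
    rw [← he0]
    exact fun h => ht1 (e.injective h)
  obtain ⟨j, hj⟩ := Fin.exists_succ_eq.2 het1
  -- the supports
  obtain ⟨S0, hS0, hS0c⟩ := supp_card' (fun _ => hz) hR (fun _ => hzR)
  have h2 : ∀ t, ∃ S : Finset G.Pl, (∀ q ∉ S, G.ord q (p t) = 0) ∧ (S.card : ℤ) ≤ 2 * R :=
    fun t => supp_card' (hp t) hR (hpR t)
  choose Sp hSp hSpc using h2
  have h3 : ∀ t, ∃ S : Finset G.Pl, (∀ q ∉ S, G.ord q (β t) = 0) ∧
      (S.card : ℤ) ≤ 2 * (B * R) :=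
    fun t => supp_card' (hβ t) (by positivity) (hβR t)
  choose Sb hSb hSbc using h3
  obtain ⟨S, hS⟩ : ∃ S : Finset G.Pl, S = S0 ∪ (Finset.univ.biUnion Sp ∪ Finset.univ.biUnion Sb) :=
    ⟨_, rfl⟩
  have hSc : (S.card : ℤ) ≤ 2 * (1 + W + W * B) * R := by
    have h4 : S.card ≤ S0.card + (∑ t, (Sp t).card + ∑ t, (Sb t).card) := by
      rw [hS]
      refine (Finset.card_union_le _ _).trans (Nat.add_le_add_left ?_ _)
      refine (Finset.card_union_le _ _).trans ?_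
      exact Nat.add_le_add Finset.card_biUnion_le Finset.card_biUnion_le
    have h5 : (∑ t, ((Sp t).card : ℤ)) ≤ W * (2 * R) := by
      rw [hW, ← nsmul_eq_mul, ← Finset.card_univ]
      exact Finset.sum_le_card_nsmul _ _ _ fun t _ => hSpc t
    have h6 : (∑ t, ((Sb t).card : ℤ)) ≤ W * (2 * (B * R)) := by
      rw [hW, ← nsmul_eq_mul, ← Finset.card_univ]
      exact Finset.sum_le_card_nsmul _ _ _ fun t _ => hSbc t
    have h7 : (S.card : ℤ) ≤ S0.card + (∑ t, ((Sp t).card : ℤ) + ∑ t, ((Sb t).card : ℤ)) := by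
      exact_mod_cast h4
    nlinarith
  have hSord : ∀ q ∉ S, G.ord q z = 0 ∧ (∀ t, G.ord q (p t) = 0) ∧ ∀ t, G.ord q (β t) = 0 := by
    intro q hq
    rw [hS, Finset.mem_union, Finset.mem_union, Finset.mem_biUnion, Finset.mem_biUnion] at hq
    push Not at hq
    exact ⟨hS0 q hq.1, fun t => hSp t q (hq.2.1 t (Finset.mem_univ t)),
      fun t => hSb t q (hq.2.2 t (Finset.mem_univ t))⟩
  have hbm := bm_height G (fun t => x (e t)) (fun t => hxU _) c hc hrel' hwr S (by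
    intro q hq t
    obtain ⟨h4, h5, h6⟩ := hSord q hq
    generalize e t = t'
    refine Fin.cases ?_ (fun i => ?_) t'
    · rw [hx0, Geo.ord_pow, h4, mul_zero]
    · rw [hxs, Geo.ord_neg, Geo.ord_mul (hβ0 i) (pow_ne_zero m (hp0 i)), Geo.ord_pow, h5, h6]
      simp) 0 t1
  refine ⟨(ε.symm j).1, hp0 j, ?_⟩
  have hzp : (z / p (ε.symm j).1) ^ m = -(x (e 0) / x (e t1) * β (ε.symm j).1) := by
    rw [he0, ← hj, hx0, hxs]
    have h4 := hβ0 j
    have h5 := pow_ne_zero m (hp0 j)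
    rw [div_pow, div_mul_eq_mul_div, div_neg, neg_neg, mul_comm (β _) (p _ ^ m),
      mul_div_mul_right _ _ h4]
  have h8 : (m : ℤ) * G.h (z / p (ε.symm j).1) ≤ G.h (x (e 0) / x (e t1)) + B * R := by
    rw [← h_pow, hzp, h_neg]
    refine (h_mul_le (div_ne_zero (hxU _).1 (hxU _).1) (hβ0 j)).trans ?_
    exact add_le_add_right (hβR _ (hβ0 j)) _
  have h9 : ((s * (s - 1) / 2 : ℕ) : ℤ) * (G.κ + S.card) ≤
      (W : ℤ) ^ 2 * (C + 1 + W + W * B) * R := by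
    have h10 : 2 * (s * (s - 1) / 2) ≤ W ^ 2 := by
      refine (Nat.mul_div_le _ _).trans ?_
      rw [pow_two]
      exact Nat.mul_le_mul (hsn.trans hnW) ((Nat.sub_le _ _).trans (hsn.trans hnW))
    have h11 : (2 : ℤ) * ((s * (s - 1) / 2 : ℕ) : ℤ) ≤ (W : ℤ) ^ 2 := by exact_mod_cast h10
    have h12 : (G.κ : ℤ) + S.card ≤ 2 * ((C + 1 + W + W * B) * R) := by
      have : (2 : ℤ) * (C + 1 + W + W * B) * R = 2 * C * R + 2 * (1 + W + W * B) * R := by ring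
      nlinarith
    calc ((s * (s - 1) / 2 : ℕ) : ℤ) * (G.κ + S.card)
        ≤ ((s * (s - 1) / 2 : ℕ) : ℤ) * (2 * ((C + 1 + W + W * B) * R)) :=
          mul_le_mul_of_nonneg_left h12 (by positivity)
      _ = (2 * ((s * (s - 1) / 2 : ℕ) : ℤ)) * ((C + 1 + W + W * B) * R) := by ring
      _ ≤ (W : ℤ) ^ 2 * ((C + 1 + W + W * B) * R) :=
          mul_le_mul_of_nonneg_right h11 (by positivity)
      _ = (W : ℤ) ^ 2 * (C + 1 + W + W * B) * R := by ring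
  push_cast
  linarith

end Pool.Agent.Lib.P62i
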