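import Pool.Agent.Lib.P62i.Bas

/-!
# Coefficients are defined over the field of the points
-/

namespace Pool.Agent.Lib.P62i

open Matrix

theorem map_ft {L1 L : Type*} [Field L1] [Field L] (ι : L1 →+* L) {N m : ℕ} {S : Type}
    (ex : S → Fin N → ℕ) (x : Fin N → L1) (t : Fin N ⊕ S) :
    ι (ft ex m x t) = ft ex m (fun a => ι (x a)) t := by
  rw [← mono_xt, ← mono_xt, map_mono]

theorem lac_eq {L : Type*} [Field L] {N m : ℕ} {S : Type} [Fintype S] (ex : S → Fin N → ℕ)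
    (A : Matrix (Fin N) (Fin N) L) (q : Fin N → S → L) (x : Fin N → L) (a : Fin N) :
    lac ex m A q x a = ∑ t, Sum.elim (A a) (q a) t * ft ex m x t := by
  rw [lac, Fintype.sum_sum_type]
  rfl

theorem coef_sub {L1 L : Type*} [Field L1] [Field L] (ι : L1 →+* L) {N m : ℕ} {S : Type}
    [Fintype S] [DecidableEq S] (ex : S → Fin N → ℕ) (A : Matrix (Fin N) (Fin N) L)
    (q : Fin N → S → L) {J : Type*} (y y' : J → Fin N → L1)
    (h : ∀ j a, lac ex m A q (fun a => ι (y j a)) a = ι (y' j a))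
    (hsp : ∀ c : Fin N ⊕ S → L1, c ≠ 0 → ∃ j, ∑ t, c t * ft ex m (y j) t ≠ 0) :
    ∃ (A1 : Matrix (Fin N) (Fin N) L1) (q1 : Fin N → S → L1),
      (∀ a b, A a b = ι (A1 a b)) ∧ ∀ a s, q a s = ι (q1 a s) := by
  obtain ⟨p, -, hdet⟩ := exists_basis (fun j => ft ex m (y j)) Set.univ (by
    intro c hc
    obtain ⟨j, hj⟩ := hsp c hc
    exact ⟨j, Set.mem_univ j, hj⟩)
  obtain ⟨M, hM⟩ : ∃ M : Matrix (Fin N ⊕ S) (Fin N ⊕ S) L1,
      M = Matrix.of fun t => ft ex m (y (p t)) := ⟨_, rfl⟩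
  rw [← hM] at hdet
  have hu : IsUnit M.det := isUnit_iff_ne_zero.2 hdet
  have key : ∀ a, Sum.elim (A a) (q a) = fun t => ι ((M⁻¹ *ᵥ fun t => y' (p t) a) t) := by
    intro a
    obtain ⟨w, hw⟩ : ∃ w, w = M⁻¹ *ᵥ fun t => y' (p t) a := ⟨_, rfl⟩
    rw [← hw]
    have h1 : M *ᵥ w = fun t => y' (p t) a := by
      rw [hw, Matrix.mulVec_mulVec, Matrix.mul_nonsing_inv _ hu, Matrix.one_mulVec]
    have h2 : (M.map ι) *ᵥ (fun t => Sum.elim (A a) (q a) t - ι (w t)) = 0 := by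
      funext t
      have h3 := congrFun h1 t
      have h4 := h (p t) a
      rw [lac_eq] at h4
      simp only [Matrix.mulVec, dotProduct] at h3 ⊢
      rw [Pi.zero_apply]
      have h5 : ∑ j, M.map ι t j * (Sum.elim (A a) (q a) j - ι (w j)) =
          ∑ j, Sum.elim (A a) (q a) j * ft ex m (fun a => ι (y (p t) a)) j -
            ι (∑ j, M t j * w j) := by
        rw [map_sum, ← Finset.sum_sub_distrib]
        refine Finset.sum_congr rfl fun j _ => ?_
        rw [Matrix.map_apply, hM, Matrix.of_apply, ← map_ft, map_mul]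
        ring
      rw [h5, h3, h4, sub_self]
    have h3 : (fun t => Sum.elim (A a) (q a) t - ι (w t)) = 0 := by
      by_contra hne
      have h4 : (M.map ι).det = 0 := Matrix.exists_mulVec_eq_zero_iff.1 ⟨_, hne, h2⟩
      have h5 : (M.map ι).det = ι M.det := by
        rw [RingHom.map_det]; rfl
      rw [h5, map_eq_zero] at h4
      exact hdet h4
    funext t
    exact sub_eq_zero.1 (congrFun h3 t)
  refine ⟨fun a b => (M⁻¹ *ᵥ fun t => y' (p t) a) (Sum.inl b),
    fun a s => (M⁻¹ *ᵥ fun t => y' (p t) a) (Sum.inr s), fun a b => ?_, fun a s => ?_⟩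
  · exact congrFun (key a) (Sum.inl b)
  · exact congrFun (key a) (Sum.inr s)

end Pool.Agent.Lib.P62i
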