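import Pool.Agent.Lib.P62i.Defs
import Pool.Agent.Lib.P62h.HtX

/-!
# Heights of determinants of feature matrices
-/

namespace Pool.Agent.Lib.P62i

open WithZero Pool.Agent.Lib.P62g Pool.Agent.Lib.P62h

universe u w

variable {F : Type w} {L : Type u} [Field F] [Field L] [Algebra F L] {G : Geo F L}

theorem v_le_exp (x : L) (p : G.Pl) : G.v p x ≤ exp (max 0 (-(G.ord p x))) := by
  rcases eq_or_ne x 0 with rfl | hx
  · rw [map_zero]; exact zero_le
  · rw [Geo.v_eq hx, exp_le_exp]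
    exact le_max_right _ _

theorem prod_exp {ι : Type*} (s : Finset ι) (f : ι → ℤ) :
    ∏ i ∈ s, exp (f i) = exp (∑ i ∈ s, f i) := by
  classical
  induction s using Finset.induction_on with
  | empty => simp
  | insert a s ha ih => rw [Finset.prod_insert ha, Finset.sum_insert ha, ih, exp_add]

/-- Local bound for the determinant in terms of the rows. -/
theorem v_det_le {T : Type*} [Fintype T] [DecidableEq T] (M : Matrix T T L) (p : G.Pl)
    (lam : T → ℤ) (h : ∀ t j, G.v p (M t j) ≤ exp (lam t)) :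
    G.v p M.det ≤ exp (∑ t, lam t) := by
  rw [Matrix.det_apply]
  refine Valuation.map_sum_le _ fun σ _ => ?_
  have h1 : G.v p (Equiv.Perm.sign σ • ∏ i, M (σ i) i) = ∏ i, G.v p (M (σ i) i) := by
    rw [← map_prod]
    rcases Int.units_eq_one_or (Equiv.Perm.sign σ) with h2 | h2
    · rw [h2, one_smul]
    · rw [h2, Units.neg_smul, one_smul, Valuation.map_neg]
  rw [h1]
  calc ∏ i, G.v p (M (σ i) i) ≤ ∏ i, exp (lam (σ i)) :=
        Finset.prod_le_prod' fun i _ => h (σ i) i
    _ = ∏ i, exp (lam i) := Equiv.prod_comp σ fun i => exp (lam i)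
    _ = exp (∑ t, lam t) := prod_exp _ _

theorem h_det_fi {N : ℕ} {S : Type} [Fintype S] [DecidableEq S] (ex : S → Fin N → ℕ) {e : ℕ}
    (hex : ∀ s, ∑ a, ex s a ≤ e) (y y' : Fin N ⊕ S → Fin N → L) {R : ℤ}
    (hy : ∀ t a, G.h (y t a) ≤ R) (hy' : ∀ t a, G.h (y' t a) ≤ R)
    (hdet : (Matrix.of fun t => fi ex (y t) (y' t)).det ≠ 0) :
    G.h (Matrix.of fun t => fi ex (y t) (y' t)).det ≤
      ((Fintype.card (Fin N ⊕ S) * (N * (e + 1)) : ℕ) : ℤ) * R := by
  classical
  obtain ⟨D, hD⟩ : ∃ D, D = (Matrix.of fun t => fi ex (y t) (y' t)).det := ⟨_, rfl⟩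
  rw [← hD] at hdet ⊢
  obtain ⟨lam, hlam⟩ : ∃ lam : G.Pl → Fin N ⊕ S → ℤ, lam = fun p t =>
      ∑ a, ((e : ℤ) * max 0 (-(G.ord p (y t a))) + max 0 (-(G.ord p (y' t a)))) := ⟨_, rfl⟩
  have hent : ∀ p t j, G.v p (fi ex (y t) (y' t) j) ≤ exp (lam p t) := by
    intro p t j
    have hnn : ∀ a ∈ Finset.univ, 0 ≤ (e : ℤ) * max 0 (-(G.ord p (y t a))) +
        max 0 (-(G.ord p (y' t a))) := fun a _ => by positivity
    rcases j with b | s
    · rw [fi_inl]
      refine (v_le_exp _ p).trans ?_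
      rw [exp_le_exp, hlam]
      refine le_trans ?_ (Finset.single_le_sum hnn (Finset.mem_univ b))
      have : 0 ≤ (e : ℤ) * max 0 (-(G.ord p (y t b))) := by positivity
      linarith
    · rw [fi_inr, mono, map_prod]
      have h1 : ∀ a ∈ Finset.univ, G.v p (y t a ^ ex s a) ≤
          exp ((ex s a : ℤ) * max 0 (-(G.ord p (y t a)))) := by
        intro a _
        rw [map_pow, ← smul_eq_mul, natCast_zsmul, exp_nsmul]
        exact pow_le_pow_left' (v_le_exp _ p) _
      refine (Finset.prod_le_prod' h1).trans ?_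
      rw [prod_exp, exp_le_exp, hlam]
      refine Finset.sum_le_sum fun a _ => ?_
      have h2 : (ex s a : ℤ) ≤ e := by
        have : ex s a ≤ e := (Finset.single_le_sum (fun _ _ => Nat.zero_le _)
          (Finset.mem_univ a)).trans (hex s)
        exact_mod_cast this
      have h3 := mul_le_mul_of_nonneg_right h2 (le_max_left 0 (-(G.ord p (y t a))))
      have h4 := le_max_left 0 (-(G.ord p (y' t a)))
      linarith
  have hloc : ∀ p, max 0 (-(G.ord p D)) ≤ ∑ t, lam p t := by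
    intro p
    have h1 := v_det_le (Matrix.of fun t => fi ex (y t) (y' t)) p (lam p) (hent p)
    rw [← hD, Geo.v_eq hdet, exp_le_exp] at h1
    refine max_le ?_ h1
    refine Finset.sum_nonneg fun t _ => ?_
    rw [hlam]
    exact Finset.sum_nonneg fun a _ => by positivity
  -- a finite set of places
  obtain ⟨T0, hT0⟩ : ∃ T0 : Finset G.Pl, T0 = (Geo.ord_fin (G := G) D).toFinset ∪
      (Finset.univ.biUnion (fun q : (Fin N ⊕ S) × Fin N =>
        (Geo.ord_fin (G := G) (y q.1 q.2)).toFinset) ∪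
      Finset.univ.biUnion (fun q : (Fin N ⊕ S) × Fin N =>
        (Geo.ord_fin (G := G) (y' q.1 q.2)).toFinset)) := ⟨_, rfl⟩
  have hTD : ∀ p, G.ord p D ≠ 0 → p ∈ T0 := by
    intro p hp
    rw [hT0, Finset.mem_union]
    exact Or.inl (mem_supp D p hp)
  have hTy : ∀ t a p, G.ord p (y t a) ≠ 0 → p ∈ T0 := by
    intro t a p hp
    rw [hT0, Finset.mem_union, Finset.mem_union]
    exact Or.inr (Or.inl (Finset.mem_biUnion.2 ⟨(t, a), Finset.mem_univ _, mem_supp _ p hp⟩))
  have hTy' : ∀ t a p, G.ord p (y' t a) ≠ 0 → p ∈ T0 := by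
    intro t a p hp
    rw [hT0, Finset.mem_union, Finset.mem_union]
    exact Or.inr (Or.inr (Finset.mem_biUnion.2 ⟨(t, a), Finset.mem_univ _, mem_supp _ p hp⟩))
  rw [Geo.h_eq_sum T0 hTD]
  calc ∑ p ∈ T0, max 0 (-(G.ord p D)) ≤ ∑ p ∈ T0, ∑ t, lam p t :=
        Finset.sum_le_sum fun p _ => hloc p
    _ = ∑ t, ∑ a, ((e : ℤ) * G.h (y t a) + G.h (y' t a)) := by
        rw [Finset.sum_comm]
        refine Finset.sum_congr rfl fun t _ => ?_
        rw [hlam, Finset.sum_comm]
        refine Finset.sum_congr rfl fun a _ => ?_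
        rw [Finset.sum_add_distrib, ← Finset.mul_sum, ← Geo.h_eq_sum T0 (hTy t a),
          ← Geo.h_eq_sum T0 (hTy' t a)]
    _ ≤ ∑ _t : Fin N ⊕ S, ∑ _a : Fin N, ((e : ℤ) * R + R) := by
        refine Finset.sum_le_sum fun t _ => Finset.sum_le_sum fun a _ => ?_
        have h1 := mul_le_mul_of_nonneg_left (hy t a) (Int.natCast_nonneg e)
        have h2 := hy' t a
        linarith
    _ = ((Fintype.card (Fin N ⊕ S) * (N * (e + 1)) : ℕ) : ℤ) * R := by
        simp only [Finset.sum_const, Finset.card_univ, Fintype.card_fin, nsmul_eq_mul]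
        push_cast
        ring

end Pool.Agent.Lib.P62i
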