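import Pool.Agent.Lib.P62i.LinA
import Pool.Agent.Lib.P62i.Bas
import Pool.Agent.Lib.P62i.Clo
import Pool.Agent.Lib.P62i.HtDet
import Pool.Agent.Lib.P62g.Core

/-!
# Finite invariant families of points for `x ↦ A x^(m) + q(x)`, core case
-/

namespace Pool.Agent.Lib.P62i

open IntermediateField Pool.Agent.Lib.P62g Pool.Agent.Lib.P62h

universe u w

theorem core3 {F : Type w} {L : Type u} [Field F] [IsAlgClosed F] [CharZero F] [Field L]
    [Algebra F L] (u : L) (hu : Transcendental F u) {n e m N : ℕ} {S : Type} [Fintype S]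
    [DecidableEq S] (ex : S → Fin N → ℕ) (hex : ∀ s, ∑ a, ex s a ≤ e)
    (hpos : 0 < Module.finrank F⟮u⟯ L) (hn : Module.finrank F⟮u⟯ L ≤ n)
    (hm : 2 * KK (Fintype.card (Fin N ⊕ S)) (2 * (Fintype.card (Fin N ⊕ S) * (N * (e + 1)))) n < m)
    (A : Matrix (Fin N) (Fin N) L) (hA : A.det ≠ 0) (q : Fin N → S → L) {J : Type*} [Finite J]
    (τ : J → J) (y : J → Fin N → L) (hy : ∀ j, y (τ j) = lac ex m A q (y j))
    (h1 : ∀ a, ∃ j, y j a = 1)
    (hgen : IntermediateField.adjoin F (insert u {z | z ≠ 0 ∧ ∃ j a, y j a = z}) = ⊤)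
    (hwide : Wide ex m y) (j : J) (a : Fin N) : ∃ c : F, y j a = algebraMap F L c := by
  classical
  have : Fintype J := Fintype.ofFinite J
  obtain ⟨B, hB⟩ : ∃ B, B = 2 * (Fintype.card (Fin N ⊕ S) * (N * (e + 1))) := ⟨_, rfl⟩
  rw [← hB] at hm
  have hm1 : 1 ≤ m := by omega
  -- the nonzero coordinates
  obtain ⟨Q, hQ⟩ : ∃ Q : Finset L, Q =
      (Finset.univ.image fun r : J × Fin N => y r.1 r.2).erase 0 := ⟨_, rfl⟩
  have hmemQ : ∀ z, z ∈ Q ↔ z ≠ 0 ∧ ∃ j a, y j a = z := by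
    intro z
    rw [hQ, Finset.mem_erase, Finset.mem_image]
    constructor
    · rintro ⟨h, ⟨r, _, hr⟩⟩
      exact ⟨h, r.1, r.2, hr⟩
    · rintro ⟨h, j, a, hr⟩
      exact ⟨h, (j, a), Finset.mem_univ _, hr⟩
  have hQset : (Q : Set L) = {z : L | z ≠ 0 ∧ ∃ j a, y j a = z} := by
    ext z
    exact hmemQ z
  have h0Q : (0 : L) ∉ Q := fun h => ((hmemQ 0).1 h).1 rfl
  -- the determinants
  obtain ⟨D, hD⟩ : ∃ D : (Fin N ⊕ S → J) → L, D = fun p =>
      (Matrix.of fun t => fi ex (y (p t)) (y (τ (p t)))).det := ⟨_, rfl⟩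
  obtain ⟨W, hW⟩ : ∃ W : Finset L, W = (Q ∪ Q.image fun z => z⁻¹) ∪
      ((Finset.univ.image D) ∪ Finset.univ.image fun p => (D p)⁻¹) := ⟨_, rfl⟩
  obtain ⟨G, hGW, hGκ⟩ := exists_geo (F := F) u hu hpos hn Q h0Q (by rw [hQset]; exact hgen) W
  have hUn : ∀ j a, y j a ≠ 0 → IsUn G (y j a) := by
    intro j a h
    have h2 : y j a ∈ Q := (hmemQ _).2 ⟨h, j, a, rfl⟩
    refine ⟨h, hGW _ ?_, hGW _ ?_⟩
    · rw [hW, Finset.mem_union, Finset.mem_union]
      exact Or.inl (Or.inl h2)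
    · rw [hW, Finset.mem_union, Finset.mem_union]
      exact Or.inl (Or.inr (Finset.mem_image_of_mem _ h2))
  have hUD : ∀ p, D p ≠ 0 → IsUn G (D p) := by
    intro p h
    refine ⟨h, hGW _ ?_, hGW _ ?_⟩
    · rw [hW, Finset.mem_union, Finset.mem_union (s := Finset.univ.image D)]
      exact Or.inr (Or.inl (Finset.mem_image_of_mem _ (Finset.mem_univ p)))
    · rw [hW, Finset.mem_union, Finset.mem_union (s := Finset.univ.image D)]
      exact Or.inr (Or.inr (Finset.mem_image.2 ⟨p, Finset.mem_univ p, rfl⟩))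
  have hne : (Finset.univ : Finset ((J × J) × Fin N)).Nonempty := ⟨((j, j), a), Finset.mem_univ _⟩
  obtain ⟨⟨⟨j1, j2⟩, a0⟩, _, hmax⟩ := Finset.exists_max_image Finset.univ
    (fun r : (J × J) × Fin N => G.h (y r.1.1 r.2 / y r.1.2 r.2)) hne
  obtain ⟨R, hR⟩ : ∃ R, R = G.h (y j1 a0 / y j2 a0) := ⟨_, rfl⟩
  have hR0 : 0 ≤ R := by rw [hR]; exact Geo.h_nonneg _
  have hmax' : ∀ j j' a, G.h (y j a / y j' a) ≤ R := by
    intro j j' a
    rw [hR]
    exact hmax ((j, j'), a) (Finset.mem_univ _)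
  have hyR : ∀ j a, G.h (y j a) ≤ R := by
    intro j a
    obtain ⟨j', hj'⟩ := h1 a
    have h2 := hmax' j j' a
    rwa [hj', div_one] at h2
  have hκ : (G.κ : ℤ) ≤ 2 * ((n ^ 4 : ℕ) : ℤ) * R := by
    have h2 := hGκ R hR0 (by
      intro z hz
      obtain ⟨_, j, a, rfl⟩ := (hmemQ z).1 hz
      exact hyR j a)
    push_cast at h2 ⊢
    exact h2
  have hDle : ∀ p, D p ≠ 0 → G.h (D p) ≤
      ((Fintype.card (Fin N ⊕ S) * (N * (e + 1)) : ℕ) : ℤ) * R := by
    intro p hp
    rw [hD] at hp ⊢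
    exact h_det_fi ex hex _ _ (fun t a => hyR _ a) (fun t a => hyR _ a) hp
  -- far points do not span
  have hfar : ∀ z a, y z a ≠ 0 → ∃ c : Fin N ⊕ S → L, c ≠ 0 ∧ ∀ j,
      ∑ t, c t * ft ex m (y j) t ≠ 0 →
        y j a ≠ 0 ∧ m * G.h (y z a / y j a) ≤ (KK (Fintype.card (Fin N ⊕ S)) B n : ℤ) * R := by
    intro z a hz
    by_contra hcon
    obtain ⟨p, hpX, hpdet⟩ := exists_basis (fun j => ft ex m (y j))
      {j | ¬ (y j a ≠ 0 ∧ m * G.h (y z a / y j a) ≤
        (KK (Fintype.card (Fin N ⊕ S)) B n : ℤ) * R)} (by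
      intro c hc
      by_contra hcon2
      apply hcon
      refine ⟨c, hc, fun j hj => ?_⟩
      by_contra hj2
      exact hcon2 ⟨j, hj2, hj⟩)
    have hfidet : D p ≠ 0 := by
      have h2 := fi_det_ne ex m A q hA (fun t => y (p t)) hpdet
      rw [hD]
      simpa only [hy] using h2
    obtain ⟨β, hβ⟩ : ∃ β : Fin N ⊕ S → L, β = fun t => D (Function.update p t z) / D p := ⟨_, rfl⟩
    have hupd : ∀ t, (((Matrix.of fun t => fi ex (y (p t)) (y (τ (p t)))) :
        Matrix (Fin N ⊕ S) (Fin N ⊕ S) L).updateRow t (fi ex (y z) (y (τ z)))).det =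
          D (Function.update p t z) := by
      intro t
      rw [hD]
      congr 1
      ext i j
      rcases eq_or_ne i t with rfl | hit
      · rw [Matrix.updateRow_self, Matrix.of_apply, Function.update_self]
      · rw [Matrix.updateRow_ne hit, Matrix.of_apply, Matrix.of_apply,
          Function.update_of_ne hit]
    have hcr : ∀ j, ∑ t, β t * fi ex (y (p t)) (lac ex m A q (y (p t))) j =
        fi ex (y z) (lac ex m A q (y z)) j := by
      intro j
      have hM : ((Matrix.of fun t => fi ex (y (p t)) (y (τ (p t)))) :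
        Matrix (Fin N ⊕ S) (Fin N ⊕ S) L).det ≠ 0 := by
        have h2 := hfidet
        rw [hD] at h2
        exact h2
      have h3 := cramer_row _ hM (fi ex (y z) (y (τ z))) j
      rw [← hy z, ← h3]
      refine Finset.sum_congr rfl fun t _ => ?_
      rw [hupd, hβ, ← hy (p t), hD]
      rfl
    have hrel := rel_lift ex m A q hA β (fun t => y (p t)) (y z) hcr a
    have hβU : ∀ t, β t ≠ 0 → IsUn G (β t) := by
      intro t ht
      rw [hβ] at ht ⊢
      have h4 : D (Function.update p t z) ≠ 0 := fun h0 => ht (by simp only [h0, zero_div])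
      change IsUn G (D (Function.update p t z) / D p)
      rw [div_eq_mul_inv]
      exact (hUD _ h4).mul (hUD _ hfidet).inv
    have hβR : ∀ t, β t ≠ 0 → G.h (β t) ≤ (B : ℤ) * R := by
      intro t ht
      have h4 : D (Function.update p t z) ≠ 0 := fun h0 => ht (by rw [hβ]; simp only [h0, zero_div])
      have h5 : G.h (β t) ≤ G.h (D (Function.update p t z)) + G.h (D p)⁻¹ := by
        rw [hβ]
        change G.h (D (Function.update p t z) / D p) ≤ _
        rw [div_eq_mul_inv]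
        exact h_mul_le h4 (inv_ne_zero hfidet)
      rw [h_inv (hUD _ hfidet)] at h5
      have h6 := hDle _ h4
      have h7 := hDle _ hfidet
      rw [hB]
      push_cast at h6 h7 ⊢
      linarith
    obtain ⟨t, ht0, ht⟩ := close (G := G) (m := m) (B := B) (C := n ^ 4) hR0 (y z a) (hUn z a hz)
      (fun t => y (p t) a) β (fun t ht => hUn _ _ ht) hβU hm1 hrel (hyR z a)
      (fun t _ => hyR _ a) hβR hκ
    refine hpX t ⟨ht0, ?_⟩
    rw [KK]
    exact ht
  have hRz : R = 0 := by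
    by_contra hRne
    have hR1 : 1 ≤ R := by omega
    have hj1 : y j1 a0 ≠ 0 := by
      intro h
      rw [h, zero_div] at hR
      apply hRne
      rw [hR, ← map_zero (algebraMap F L)]
      exact h_const 0
    have hj2 : y j2 a0 ≠ 0 := by
      intro h
      rw [h, div_zero] at hR
      apply hRne
      rw [hR, ← map_zero (algebraMap F L)]
      exact h_const 0
    obtain ⟨c, hc, hc2⟩ := hfar j1 a0 hj1
    obtain ⟨c', hc', hc2'⟩ := hfar j2 a0 hj2
    obtain ⟨i, hi, hi'⟩ := hwide c c' hc hc'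
    obtain ⟨hi0, hi1⟩ := hc2 i hi
    obtain ⟨_, hi2⟩ := hc2' i hi'
    have h3 : y j1 a0 / y j2 a0 = (y j1 a0 / y i a0) * (y j2 a0 / y i a0)⁻¹ := by
      rw [inv_div, div_mul_div_cancel₀ hi0]
    have hU : IsUn G (y j2 a0 / y i a0) := by
      rw [div_eq_mul_inv]
      exact (hUn _ _ hj2).mul (hUn _ _ hi0).inv
    have h4 : R ≤ G.h (y j1 a0 / y i a0) + G.h (y j2 a0 / y i a0) := by
      rw [hR, h3, ← h_inv hU]
      exact h_mul_le (div_ne_zero hj1 hi0) hU.inv.1
    have h5 : (m : ℤ) * R ≤ 2 * (KK (Fintype.card (Fin N ⊕ S)) B n : ℤ) * R := by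
      have h6 := mul_le_mul_of_nonneg_left h4 (Int.natCast_nonneg m)
      linarith
    have h6 : (2 * (KK (Fintype.card (Fin N ⊕ S)) B n : ℤ)) < m := by exact_mod_cast hm
    have h7 := mul_lt_mul_of_pos_right h6 (by omega : 0 < R)
    linarith
  by_cases hja : y j a = 0
  · exact ⟨0, by rw [hja, map_zero]⟩
  · have h3 := hyR j a
    rw [hRz] at h3
    exact Geo.const_of_h_eq_zero (hUn j a hja).2.1 (le_antisymm h3 (Geo.h_nonneg _))

end Pool.Agent.Lib.P62i
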