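import Mathlib

/-!
# The maps `x ↦ A x^(m) + q(x)` on affine `N`-space: definitions

`S` indexes the monomials `x ^ (ex s)` of low degree which occur in `q`.
-/

namespace Pool.Agent.Lib.P62i

/-- The monomial `x ^ α`. -/
def mono {L : Type*} [CommRing L] {N : ℕ} (x : Fin N → L) (α : Fin N → ℕ) : L :=
  ∏ a, x a ^ α a

/-- The features of a point: the powers `x_b ^ m` and the monomials of low degree. -/
def ft {L : Type*} [CommRing L] {N : ℕ} {S : Type} (ex : S → Fin N → ℕ) (m : ℕ)
    (x : Fin N → L) : Fin N ⊕ S → L :=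
  Sum.elim (fun b => x b ^ m) (fun s => mono x (ex s))

/-- The features of a point `x` with image `x'`: the coordinates of the image and the monomials of
low degree of the point. -/
def fi {L : Type*} [CommRing L] {N : ℕ} {S : Type} (ex : S → Fin N → ℕ)
    (x x' : Fin N → L) : Fin N ⊕ S → L :=
  Sum.elim x' (fun s => mono x (ex s))

/-- The map `x ↦ A x^(m) + q(x)`. -/
def lac {L : Type*} [CommRing L] {N : ℕ} {S : Type} [Fintype S] (ex : S → Fin N → ℕ) (m : ℕ)
    (A : Matrix (Fin N) (Fin N) L) (q : Fin N → S → L) (x : Fin N → L) : Fin N → L :=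
  fun a => ∑ b, A a b * x b ^ m + ∑ s, q a s * mono x (ex s)

/-- The exponents of the features `ft`. -/
def xt {N : ℕ} {S : Type} (ex : S → Fin N → ℕ) (m : ℕ) : Fin N ⊕ S → Fin N → ℕ :=
  Sum.elim (fun b => Pi.single b m) ex

/-- A family of points is not contained in the union of two hyperplanes of the space of
features. -/
def Wide {L : Type*} [CommRing L] {N : ℕ} {S : Type} [Fintype S] (ex : S → Fin N → ℕ) (m : ℕ)
    {J : Type*} (y : J → Fin N → L) : Prop :=
  ∀ c c' : Fin N ⊕ S → L, c ≠ 0 → c' ≠ 0 →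
    ∃ j, ∑ t, c t * ft ex m (y j) t ≠ 0 ∧ ∑ t, c' t * ft ex m (y j) t ≠ 0

/-- The size `K` of the closeness lemma; `n` bounds the gonality. -/
def KK (W B n : ℕ) : ℕ := W ^ 2 * (n ^ 4 + 1 + W + W * B) + B

section

variable {L : Type*} [CommRing L] {N : ℕ} {S : Type} (ex : S → Fin N → ℕ) (m : ℕ)

@[simp] theorem ft_inl (x : Fin N → L) (b : Fin N) : ft ex m x (Sum.inl b) = x b ^ m := rfl

@[simp] theorem ft_inr (x : Fin N → L) (s : S) : ft ex m x (Sum.inr s) = mono x (ex s) := rfl

@[simp] theorem fi_inl (x x' : Fin N → L) (b : Fin N) : fi ex x x' (Sum.inl b) = x' b := rfl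

@[simp] theorem fi_inr (x x' : Fin N → L) (s : S) : fi ex x x' (Sum.inr s) = mono x (ex s) := rfl

@[simp] theorem xt_inl (b : Fin N) : xt ex m (Sum.inl b) = Pi.single b m := rfl

@[simp] theorem xt_inr (s : S) : xt ex m (Sum.inr s) = ex s := rfl

theorem mono_single (x : Fin N → L) (b : Fin N) (m : ℕ) : mono x (Pi.single b m) = x b ^ m := by
  classical
  rw [mono, Finset.prod_eq_single b]
  · rw [Pi.single_eq_same]
  · intro a _ hab
    rw [Pi.single_eq_of_ne hab, pow_zero]
  · intro h
    exact absurd (Finset.mem_univ b) h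

theorem mono_xt (x : Fin N → L) (t : Fin N ⊕ S) : mono x (xt ex m t) = ft ex m x t := by
  rcases t with b | s
  · rw [xt_inl, mono_single, ft_inl]
  · rfl

theorem mono_add (x : Fin N → L) (α β : Fin N → ℕ) : mono x (α + β) = mono x α * mono x β := by
  rw [mono, mono, mono, ← Finset.prod_mul_distrib]
  exact Finset.prod_congr rfl fun a _ => by rw [Pi.add_apply, pow_add]

theorem mono_mul (x y : Fin N → L) (α : Fin N → ℕ) :
    mono (fun a => x a * y a) α = mono x α * mono y α := by
  rw [mono, mono, mono, ← Finset.prod_mul_distrib]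
  exact Finset.prod_congr rfl fun a _ => by rw [mul_pow]

theorem map_mono {L' : Type*} [CommRing L'] (φ : L →+* L') (x : Fin N → L) (α : Fin N → ℕ) :
    φ (mono x α) = mono (fun a => φ (x a)) α := by
  rw [mono, mono, map_prod]
  exact Finset.prod_congr rfl fun a _ => by rw [map_pow]

end

end Pool.Agent.Lib.P62i
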