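import Pool.Agent.Lib.P62i.Defs

/-!
# Linear relations between features
-/

namespace Pool.Agent.Lib.P62i

open Matrix

variable {L : Type*} [Field L] {N : ℕ} {S : Type} [Fintype S] (ex : S → Fin N → ℕ) (m : ℕ)
  (A : Matrix (Fin N) (Fin N) L) (q : Fin N → S → L)

theorem mulVec_inj_aux (hA : A.det ≠ 0) (v : Fin N → L) (h : ∀ a, ∑ b, A a b * v b = 0) :
    v = 0 := by
  by_contra hv
  exact hA (Matrix.exists_mulVec_eq_zero_iff.1 ⟨v, hv, by
    funext a
    exact h a⟩)

/-- A relation between the features `fi` gives a relation between the `m`-th powers. -/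
theorem rel_lift (hA : A.det ≠ 0) {T : Type*} [Fintype T] (β : T → L) (p : T → Fin N → L)
    (z : Fin N → L)
    (h : ∀ j, ∑ t, β t * fi ex (p t) (lac ex m A q (p t)) j = fi ex z (lac ex m A q z) j)
    (a : Fin N) : z a ^ m = ∑ t, β t * p t a ^ m := by
  have h1 : (fun b => ∑ t, β t * p t b ^ m - z b ^ m) = 0 := by
    apply mulVec_inj_aux A hA
    intro a
    have h2 := h (Sum.inl a)
    simp only [fi_inl, lac] at h2
    have h3 : ∑ t, β t * ∑ s, q a s * mono (p t) (ex s) = ∑ s, q a s * mono z (ex s) := by
      have h4 : ∀ s, ∑ t, β t * mono (p t) (ex s) = mono z (ex s) := fun s => h (Sum.inr s)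
      calc ∑ t, β t * ∑ s, q a s * mono (p t) (ex s)
          = ∑ t, ∑ s, q a s * (β t * mono (p t) (ex s)) := by
            refine Finset.sum_congr rfl fun t _ => ?_
            rw [Finset.mul_sum]
            exact Finset.sum_congr rfl fun s _ => by ring
        _ = ∑ s, q a s * ∑ t, β t * mono (p t) (ex s) := by
            rw [Finset.sum_comm]
            exact Finset.sum_congr rfl fun s _ => by rw [Finset.mul_sum]
        _ = ∑ s, q a s * mono z (ex s) := by simp only [h4]
    have h5 : ∑ t, β t * ∑ b, A a b * p t b ^ m = ∑ b, A a b * z b ^ m := by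
      have h6 : ∑ t, β t * (∑ b, A a b * p t b ^ m + ∑ s, q a s * mono (p t) (ex s)) =
          ∑ t, β t * ∑ b, A a b * p t b ^ m + ∑ t, β t * ∑ s, q a s * mono (p t) (ex s) := by
        rw [← Finset.sum_add_distrib]
        exact Finset.sum_congr rfl fun t _ => by ring
      rw [h6, h3] at h2
      exact add_right_cancel h2
    calc ∑ b, A a b * (∑ t, β t * p t b ^ m - z b ^ m)
        = ∑ b, (∑ t, β t * (A a b * p t b ^ m)) - ∑ b, A a b * z b ^ m := by
          rw [← Finset.sum_sub_distrib]
          refine Finset.sum_congr rfl fun b _ => ?_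
          rw [mul_sub, Finset.mul_sum]
          congr 1
          exact Finset.sum_congr rfl fun t _ => by ring
      _ = ∑ t, β t * ∑ b, A a b * p t b ^ m - ∑ b, A a b * z b ^ m := by
          rw [Finset.sum_comm]
          congr 1
          exact Finset.sum_congr rfl fun t _ => by rw [Finset.mul_sum]
      _ = 0 := by rw [h5, sub_self]
  have h7 := congrFun h1 a
  simp only [Pi.zero_apply] at h7
  exact (sub_eq_zero.1 h7).symm

/-- Independence of the features `ft` gives independence of the features `fi`. -/
theorem fi_det_ne [DecidableEq S] (hA : A.det ≠ 0) (p : Fin N ⊕ S → Fin N → L)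
    (h : (Matrix.of fun t => ft ex m (p t)).det ≠ 0) :
    (Matrix.of fun t => fi ex (p t) (lac ex m A q (p t))).det ≠ 0 := by
  intro h0
  obtain ⟨β, hβ, hβ0⟩ := Matrix.exists_vecMul_eq_zero_iff.2 h0
  apply h
  refine Matrix.exists_vecMul_eq_zero_iff.1 ⟨β, hβ, ?_⟩
  have hrel : ∀ j, ∑ t, β t * fi ex (p t) (lac ex m A q (p t)) j = 0 := fun j => congrFun hβ0 j
  funext j
  rw [Pi.zero_apply]
  change ∑ t, β t * ft ex m (p t) j = 0
  rcases j with b | s
  · simp only [ft_inl]
    have h1 : (fun b => ∑ t, β t * p t b ^ m) = 0 := by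
      apply mulVec_inj_aux A hA
      intro a
      have h2 := hrel (Sum.inl a)
      simp only [fi_inl, lac] at h2
      have h3 : ∑ t, β t * ∑ s, q a s * mono (p t) (ex s) = 0 := by
        have h4 : ∀ s, ∑ t, β t * mono (p t) (ex s) = 0 := fun s => hrel (Sum.inr s)
        calc ∑ t, β t * ∑ s, q a s * mono (p t) (ex s)
            = ∑ t, ∑ s, q a s * (β t * mono (p t) (ex s)) := by
              refine Finset.sum_congr rfl fun t _ => ?_
              rw [Finset.mul_sum]
              exact Finset.sum_congr rfl fun s _ => by ring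
          _ = ∑ s, q a s * ∑ t, β t * mono (p t) (ex s) := by
              rw [Finset.sum_comm]
              exact Finset.sum_congr rfl fun s _ => by rw [Finset.mul_sum]
          _ = 0 := by simp only [h4, mul_zero, Finset.sum_const_zero]
      have h6 : ∑ t, β t * (∑ b, A a b * p t b ^ m + ∑ s, q a s * mono (p t) (ex s)) =
          ∑ t, β t * ∑ b, A a b * p t b ^ m + ∑ t, β t * ∑ s, q a s * mono (p t) (ex s) := by
        rw [← Finset.sum_add_distrib]
        exact Finset.sum_congr rfl fun t _ => by ring
      rw [h6, h3, add_zero] at h2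
      calc ∑ b, A a b * ∑ t, β t * p t b ^ m
          = ∑ b, (∑ t, β t * (A a b * p t b ^ m)) := by
            refine Finset.sum_congr rfl fun b _ => ?_
            rw [Finset.mul_sum]
            exact Finset.sum_congr rfl fun t _ => by ring
        _ = ∑ t, β t * ∑ b, A a b * p t b ^ m := by
            rw [Finset.sum_comm]
            exact Finset.sum_congr rfl fun t _ => by rw [Finset.mul_sum]
        _ = 0 := h2
    exact congrFun h1 b
  · exact hrel (Sum.inr s)

/-- Cramer's rule for rows. -/
theorem cramer_row {T : Type*} [Fintype T] [DecidableEq T] (M : Matrix T T L) (hM : M.det ≠ 0)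
    (z : T → L) (j : T) : ∑ t, (M.updateRow t z).det / M.det * M t j = z j := by
  have h1 : Mᵀ *ᵥ Matrix.cramer Mᵀ z = M.det • z := by
    have := Matrix.mulVec_cramer Mᵀ z
    rwa [Matrix.det_transpose] at this
  have h2 := congrFun h1 j
  simp only [Matrix.mulVec, dotProduct, Matrix.transpose_apply, Pi.smul_apply,
    smul_eq_mul, Matrix.cramer_transpose_apply] at h2
  calc ∑ t, (M.updateRow t z).det / M.det * M t j
      = (∑ t, M t j * (M.updateRow t z).det) / M.det := by
        rw [Finset.sum_div]
        exact Finset.sum_congr rfl fun t _ => by ring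
    _ = z j := by
        rw [h2]
        field_simp

end Pool.Agent.Lib.P62i
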