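import Pool.Agent.Lib.P62h.WrA

/-!
# Minimal linear relations containing a given term

Among all relations `∑ c t * x t = 0` with constant coefficients and `c i₀ ≠ 0` choose one with a
support of least cardinality; the other terms of its support are then linearly independent over
the constants, so that their Wronskian does not vanish.
-/

namespace Pool.Agent.Lib.P62i

open Pool.Agent.Lib.P62h

theorem exists_pinrel {F L : Type*} [Field F] [Field L] [Algebra F L] (θ : Derivation F L L)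
    (hker : ∀ x, θ x = 0 → ∃ c : F, x = algebraMap F L c) {n : ℕ} (x : Fin (n + 1) → L)
    (hx : ∀ t, x t ≠ 0) (h : ∑ t, x t = 0) :
    ∃ (s : ℕ) (e : Fin (s + 1) ↪ Fin (n + 1)) (c : Fin (s + 1) → F), 1 ≤ s ∧ s ≤ n ∧ e 0 = 0 ∧
      (∀ t, c t ≠ 0) ∧ ∑ t, algebraMap F L (c t) * x (e t) = 0 ∧
      wr θ (fun j => x (e ((0 : Fin (s + 1)).succAbove j))) ≠ 0 := by
  classical
  have hex : ∃ s : ℕ, ∃ (e : Fin (s + 1) ↪ Fin (n + 1)) (c : Fin (s + 1) → F), e 0 = 0 ∧
      c 0 ≠ 0 ∧ ∑ t, algebraMap F L (c t) * x (e t) = 0 := by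
    refine ⟨n, Function.Embedding.refl _, fun _ => 1, rfl, one_ne_zero, ?_⟩
    simpa using h
  obtain ⟨e, c, he0, hc0, hsum⟩ := Nat.find_spec hex
  have hmin : ∀ r < Nat.find hex, ¬ ∃ (e : Fin (r + 1) ↪ Fin (n + 1)) (c : Fin (r + 1) → F),
      e 0 = 0 ∧ c 0 ≠ 0 ∧ ∑ t, algebraMap F L (c t) * x (e t) = 0 :=
    fun r hr => Nat.find_min hex hr
  generalize Nat.find hex = s at e c he0 hc0 hsum hmin
  have hs : 1 ≤ s := by
    by_contra hs
    have hs0 : s = 0 := by omega
    subst hs0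
    rw [Fin.sum_univ_one] at hsum
    rcases mul_eq_zero.mp hsum with h1 | h1
    · exact hc0 (by simpa using h1)
    · exact hx _ h1
  obtain ⟨r, rfl⟩ : ∃ r, s = r + 1 := ⟨s - 1, by omega⟩
  have hall : ∀ t, c t ≠ 0 := by
    intro t0 ht0
    have ht00 : t0 ≠ 0 := by
      rintro rfl
      exact hc0 ht0
    have hsa : t0.succAbove (0 : Fin (r + 1)) = 0 := by
      rw [Fin.succAbove_ne_zero_zero ht00]
    refine hmin r (Nat.lt_succ_self r) ⟨(t0.succAboveEmb).trans e,
      fun j => c (t0.succAbove j), ?_, ?_, ?_⟩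
    · change e (t0.succAbove 0) = 0
      rw [hsa, he0]
    · change c (t0.succAbove 0) ≠ 0
      rw [hsa]
      exact hc0
    · rw [Fin.sum_univ_succAbove _ t0, ht0, map_zero, zero_mul, zero_add] at hsum
      exact hsum
  refine ⟨r + 1, e, c, hs, ?_, he0, hall, hsum, fun hw => ?_⟩
  · have := Fintype.card_le_of_embedding e
    simp only [Fintype.card_fin] at this
    omega
  obtain ⟨d, hd, hd0⟩ := wr_relation θ hker _ hw
  -- some coefficient of the second relation is nonzero
  obtain ⟨j0, hj0⟩ : ∃ j, d j ≠ 0 := by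
    by_contra hcon
    push Not at hcon
    exact hd (funext hcon)
  -- eliminate the term `j0.succ`
  obtain ⟨μ, hμ⟩ : ∃ μ : F, μ = c j0.succ / d j0 := ⟨_, rfl⟩
  obtain ⟨c', hc'⟩ : ∃ c' : Fin (r + 2) → F,
      c' = Fin.cases (c 0) (fun j => c j.succ - μ * d j) := ⟨_, rfl⟩
  have hc'0 : c' 0 = c 0 := by rw [hc']; rfl
  have hc's : ∀ j : Fin (r + 1), c' j.succ = c j.succ - μ * d j := by
    intro j; rw [hc']; rfl
  have hc'j : c' j0.succ = 0 := by
    rw [hc's, hμ, div_mul_cancel₀ _ hj0, sub_self]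
  have hsum' : ∑ t, algebraMap F L (c' t) * x (e t) = 0 := by
    rw [Fin.sum_univ_succ] at hsum ⊢
    have h1 : ∑ j : Fin (r + 1), algebraMap F L (c' j.succ) * x (e j.succ) =
        ∑ j : Fin (r + 1), algebraMap F L (c j.succ) * x (e j.succ) -
          algebraMap F L μ * ∑ j : Fin (r + 1), algebraMap F L (d j) * x (e j.succ) := by
      rw [Finset.mul_sum, ← Finset.sum_sub_distrib]
      refine Finset.sum_congr rfl fun j _ => ?_
      rw [hc's, map_sub, map_mul]
      ring
    have h2 : ∑ j : Fin (r + 1), algebraMap F L (d j) * x (e j.succ) = 0 := by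
      have h3 := hd0
      simp only [Fin.zero_succAbove] at h3
      exact h3
    rw [h1, h2, mul_zero, sub_zero, hc'0]
    exact hsum
  have ht00 : j0.succ ≠ 0 := Fin.succ_ne_zero j0
  have hsa : j0.succ.succAbove (0 : Fin (r + 1)) = 0 := by
    rw [Fin.succAbove_ne_zero_zero ht00]
  refine hmin r (Nat.lt_succ_self r) ⟨(j0.succ.succAboveEmb).trans e,
    fun j => c' (j0.succ.succAbove j), ?_, ?_, ?_⟩
  · change e (j0.succ.succAbove 0) = 0
    rw [hsa, he0]
  · change c' (j0.succ.succAbove 0) ≠ 0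
    rw [hsa, hc'0]
    exact hc0
  · rw [Fin.sum_univ_succAbove _ j0.succ, hc'j, map_zero, zero_mul, zero_add] at hsum'
    exact hsum'

end Pool.Agent.Lib.P62i
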