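import Pool.Agent.Lib.P62i.Core3
import Pool.Agent.Lib.P62i.ConstC
import Pool.Agent.Lib.P62g.SubFin

/-!
# Finite invariant families of points for `x ↦ A x^(m) + q(x)` over function fields
-/

namespace Pool.Agent.Lib.P62i

open IntermediateField Pool.Agent.Lib.P62g Pool.Agent.Lib.P62h

universe u w

/-- The map `x ↦ A x^(m) + q(x)` after scaling the coordinates by `s`. -/
theorem lac_scale {K : Type*} [Field K] {N m : ℕ} {S : Type} [Fintype S] (ex : S → Fin N → ℕ)
    (A : Matrix (Fin N) (Fin N) K) (q : Fin N → S → K) (s : Fin N → K) (x : Fin N → K)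
    (a : Fin N) :
    lac ex m (fun a b => A a b * s b ^ m / s a) (fun a t => q a t * mono s (ex t) / s a) x a =
      lac ex m A q (fun a => s a * x a) a / s a := by
  rw [lac, lac, add_div, Finset.sum_div, Finset.sum_div]
  congr 1
  · refine Finset.sum_congr rfl fun b _ => ?_
    rw [mul_pow]; ring
  · refine Finset.sum_congr rfl fun t _ => ?_
    rw [mono_mul]; ring

theorem wide_map {L1 L : Type*} [Field L1] [Field L] (ι : L1 →+* L) {N m : ℕ} {S : Type}
    [Fintype S] (ex : S → Fin N → ℕ) {J : Type*} (y : J → Fin N → L1)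
    (h : Wide ex m fun j a => ι (y j a)) : Wide ex m y := by
  intro c c' hc hc'
  have hne : ∀ c : Fin N ⊕ S → L1, c ≠ 0 → (fun t => ι (c t)) ≠ 0 := by
    intro c hc h0
    apply hc
    funext t
    have h1 := congrFun h0 t
    exact (map_eq_zero ι).1 h1
  have hsum : ∀ (c : Fin N ⊕ S → L1) j, ∑ t, ι (c t) * ft ex m (fun a => ι (y j a)) t =
      ι (∑ t, c t * ft ex m (y j) t) := by
    intro c j
    rw [map_sum]
    refine Finset.sum_congr rfl fun t _ => ?_
    rw [map_mul, map_ft]
  obtain ⟨j, h1, h2⟩ := h _ _ (hne c hc) (hne c' hc')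
  refine ⟨j, ?_, ?_⟩
  · intro h0
    apply h1
    rw [hsum, h0, map_zero]
  · intro h0
    apply h2
    rw [hsum, h0, map_zero]

theorem wide_scale {K : Type*} [Field K] {N m : ℕ} {S : Type} [Fintype S] (ex : S → Fin N → ℕ)
    {J : Type*} (y : J → Fin N → K) (s : Fin N → K) (hs : ∀ a, s a ≠ 0) (h : Wide ex m y) :
    Wide ex m fun j a => y j a / s a := by
  intro c c' hc hc'
  have hfs : ∀ t, ft ex m s t ≠ 0 := by
    intro t
    rw [← mono_xt, mono]
    exact Finset.prod_ne_zero_iff.2 fun a _ => pow_ne_zero _ (hs a)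
  have hne : ∀ c : Fin N ⊕ S → K, c ≠ 0 → (fun t => c t / ft ex m s t) ≠ 0 := by
    intro c hc h0
    apply hc
    funext t
    have h1 := congrFun h0 t
    rcases div_eq_zero_iff.1 h1 with h2 | h2
    · exact h2
    · exact absurd h2 (hfs t)
  have hsum : ∀ (c : Fin N ⊕ S → K) j, ∑ t, c t / ft ex m s t * ft ex m (y j) t =
      ∑ t, c t * ft ex m (fun a => y j a / s a) t := by
    intro c j
    refine Finset.sum_congr rfl fun t _ => ?_
    have h1 : ft ex m (y j) t = ft ex m (fun a => y j a / s a) t * ft ex m s t := by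
      rw [← mono_xt, ← mono_xt, ← mono_xt, ← mono_mul]
      congr 1
      funext a
      rw [div_mul_cancel₀ _ (hs a)]
    rw [h1]
    field_simp [hfs t]
  obtain ⟨j, h1, h2⟩ := h _ _ (hne c hc) (hne c' hc')
  exact ⟨j, by rwa [hsum] at h1, by rwa [hsum] at h2⟩

theorem invariant3 {F : Type w} {K : Type u} [Field F] [IsAlgClosed F] [CharZero F] [Field K]
    [Algebra F K] (u : K) (hu : Transcendental F u) {n e m N : ℕ} {S : Type} [Fintype S]
    [DecidableEq S] (ex : S → Fin N → ℕ) (hex : ∀ s, ∑ a, ex s a ≤ e)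
    (hpos : 0 < Module.finrank F⟮u⟯ K) (hn : Module.finrank F⟮u⟯ K ≤ n)
    (hm : 2 * KK (Fintype.card (Fin N ⊕ S)) (2 * (Fintype.card (Fin N ⊕ S) * (N * (e + 1)))) n < m)
    (A : Matrix (Fin N) (Fin N) K) (hA : A.det ≠ 0) (q : Fin N → S → K) {J : Type*} [Finite J]
    (τ : J → J) (y : J → Fin N → K) (hy : ∀ j, y (τ j) = lac ex m A q (y j))
    (hwide : Wide ex m y) :
    ∃ (s : Fin N → K) (A0 : Matrix (Fin N) (Fin N) F) (q0 : Fin N → S → F),
      (∀ a, s a ≠ 0) ∧ A0.det ≠ 0 ∧
      (∀ a b, A a b * s b ^ m = s a * algebraMap F K (A0 a b)) ∧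
      ∀ a t, q a t * mono s (ex t) = s a * algebraMap F K (q0 a t) := by
  classical
  have hm1 : 1 ≤ m := by omega
  -- points with nonzero coordinates
  have hnz : ∀ a, ∃ j, y j a ≠ 0 := by
    intro a
    have hne : (Pi.single (Sum.inl a) 1 : Fin N ⊕ S → K) ≠ 0 := by
      intro h
      have := congrFun h (Sum.inl a)
      rw [Pi.single_eq_same] at this
      exact one_ne_zero this
    obtain ⟨j, hj, -⟩ := hwide _ _ hne hne
    refine ⟨j, fun h0 => hj ?_⟩
    rw [Finset.sum_eq_single (Sum.inl a)]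
    · rw [Pi.single_eq_same, one_mul, ft_inl, h0, zero_pow (by omega)]
    · intro t _ ht
      rw [Pi.single_eq_of_ne ht, zero_mul]
    · intro h
      exact absurd (Finset.mem_univ _) h
  choose j0 hj0 using hnz
  obtain ⟨s, hs⟩ : ∃ s : Fin N → K, s = fun a => y (j0 a) a := ⟨_, rfl⟩
  have hs0 : ∀ a, s a ≠ 0 := by
    intro a; rw [hs]; exact hj0 a
  obtain ⟨y', hy'⟩ : ∃ y' : J → Fin N → K, y' = fun j a => y j a / s a := ⟨_, rfl⟩
  obtain ⟨A', hA'⟩ : ∃ A' : Matrix (Fin N) (Fin N) K, A' = fun a b => A a b * s b ^ m / s a :=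
    ⟨_, rfl⟩
  obtain ⟨q', hq'⟩ : ∃ q' : Fin N → S → K, q' = fun a t => q a t * mono s (ex t) / s a :=
    ⟨_, rfl⟩
  have hwide' : Wide ex m y' := by
    rw [hy']; exact wide_scale ex y s hs0 hwide
  have hdyn' : ∀ j, y' (τ j) = lac ex m A' q' (y' j) := by
    intro j
    funext a
    rw [hA', hq', lac_scale]
    have h1 : (fun a => s a * y' j a) = y j := by
      funext a
      rw [hy', mul_div_cancel₀ _ (hs0 a)]
    rw [h1, hy']
    change y (τ j) a / s a = _
    rw [hy j]
  have hone : ∀ a, ∃ j, y' j a = 1 := by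
    intro a
    refine ⟨j0 a, ?_⟩
    rw [hy']
    have h1 : y (j0 a) a = s a := by rw [hs]
    change y (j0 a) a / s a = 1
    rw [h1, div_self (hs0 a)]
  have hA'det : A'.det ≠ 0 := by
    have h1 : A'.det = (∏ a, (s a)⁻¹) * ((∏ b, s b ^ m) * A.det) := by
      rw [← Matrix.det_mul_row, ← Matrix.det_mul_column]
      congr 1
      ext a b
      simp only [hA', Matrix.of_apply]
      ring
    rw [h1]
    refine mul_ne_zero (Finset.prod_ne_zero_iff.2 fun a _ => inv_ne_zero (hs0 a))
      (mul_ne_zero (Finset.prod_ne_zero_iff.2 fun a _ => pow_ne_zero _ (hs0 a)) hA)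
  -- the field generated by the points
  set Sg : Set K := insert u {z : K | z ≠ 0 ∧ ∃ j a, y' j a = z} with hSg
  set L1 : IntermediateField F K := IntermediateField.adjoin F Sg with hL1
  have hSL : ∀ z ∈ Sg, z ∈ L1 := fun z hz => IntermediateField.subset_adjoin F Sg hz
  have hyL : ∀ j a, y' j a ∈ L1 := by
    intro j a
    by_cases h0 : y' j a = 0
    · rw [h0]; exact L1.zero_mem
    · exact hSL _ (Set.mem_insert_of_mem _ ⟨h0, j, a, rfl⟩)
  obtain ⟨y1, hy1⟩ : ∃ y1 : J → Fin N → L1, y1 = fun j a => ⟨y' j a, hyL j a⟩ := ⟨_, rfl⟩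
  have hy1' : ∀ j a, algebraMap L1 K (y1 j a) = y' j a := by
    intro j a; rw [hy1]; rfl
  have hy1f : (fun j a => algebraMap L1 K (y1 j a)) = y' := by
    funext j a; exact hy1' j a
  have hwide1 : Wide ex m y1 := by
    apply wide_map (algebraMap L1 K)
    rw [hy1f]
    exact hwide'
  obtain ⟨A1, q1, hA1, hq1⟩ := coef_sub (m := m) (algebraMap L1 K) ex A' q' y1 (fun j => y1 (τ j)) (by
    intro j a
    have h1 : (fun a => algebraMap L1 K (y1 j a)) = y' j := by
      funext a; exact hy1' j a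
    rw [h1, ← hdyn', hy1']) (by
    intro c hc
    obtain ⟨j, h1, -⟩ := hwide1 c c hc hc
    exact ⟨j, h1⟩)
  have hA1det : A1.det ≠ 0 := by
    intro h0
    apply hA'det
    have h1 : A' = A1.map (algebraMap L1 K) := by
      ext a b
      exact hA1 a b
    have h2 : (A1.map (algebraMap L1 K)).det = algebraMap L1 K A1.det := by
      rw [RingHom.map_det]; rfl
    rw [h1, h2, h0, map_zero]
  have hdyn1 : ∀ j, y1 (τ j) = lac ex m A1 q1 (y1 j) := by
    intro j
    funext a
    apply (algebraMap L1 K).injective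
    rw [hy1', hdyn' j, lac, lac, map_add, map_sum, map_sum]
    congr 1
    · refine Finset.sum_congr rfl fun b _ => ?_
      rw [map_mul, map_pow, hy1', hA1]
    · refine Finset.sum_congr rfl fun t _ => ?_
      rw [map_mul, map_mono, hq1]
      congr 2
      funext a
      exact (hy1' j a).symm
  set u1 : L1 := ⟨u, hSL u (Set.mem_insert _ _)⟩ with hu1
  have hu1t : Transcendental F u1 := by
    intro h
    exact hu (h.algebraMap (A := K))
  obtain ⟨hpos1, hn1⟩ := finrank_sub L1 u1 hpos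
  have hgen1 : IntermediateField.adjoin F (insert u1 {z : L1 | z ≠ 0 ∧ ∃ j a, y1 j a = z}) = ⊤ := by
    have h1 := adjoin_lift (F := F) Sg
    have h2 : {x : L1 | (x : K) ∈ Sg} = insert u1 {z : L1 | z ≠ 0 ∧ ∃ j a, y1 j a = z} := by
      ext z
      rw [Set.mem_setOf_eq, hSg, Set.mem_insert_iff, Set.mem_insert_iff, Set.mem_setOf_eq,
        Set.mem_setOf_eq]
      constructor
      · rintro (h | ⟨h, j, a, h'⟩)
        · exact Or.inl (Subtype.ext h)
        · exact Or.inr ⟨fun h0 => h (by rw [h0]; rfl), j, a, Subtype.ext (by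
            rw [← h']; exact hy1' j a)⟩
      · rintro (h | ⟨h, j, a, h'⟩)
        · exact Or.inl (by rw [h])
        · exact Or.inr ⟨fun h0 => h (Subtype.ext h0), j, a, by
            rw [← h']; exact (hy1' j a).symm⟩
    rw [← h2]
    exact h1
  have hconst : ∀ j a, ∃ c : F, y' j a = algebraMap F K c := by
    intro j a
    obtain ⟨c, hc⟩ := core3 (F := F) u1 hu1t ex hex hpos1 (hn1.trans hn) hm A1 hA1det q1 τ y1 hdyn1
      (by
        intro a
        obtain ⟨j, hj⟩ := hone a
        exact ⟨j, (algebraMap L1 K).injective (by rw [hy1', hj, map_one])⟩) hgen1 hwide1 j a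
    refine ⟨c, ?_⟩
    rw [← hy1', hc]
    rfl
  choose yF hyF using hconst
  have hyFf : (fun j a => algebraMap F K (yF j a)) = y' := by
    funext j a; exact (hyF j a).symm
  have hwideF : Wide ex m yF := by
    apply wide_map (algebraMap F K)
    rw [hyFf]
    exact hwide'
  obtain ⟨A0, q0, hA0, hq0⟩ := coef_sub (m := m) (algebraMap F K) ex A' q' yF (fun j => yF (τ j)) (by
    intro j a
    have h1 : (fun a => algebraMap F K (yF j a)) = y' j := by
      funext a; exact (hyF j a).symm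
    rw [h1, ← hdyn', hyF]) (by
    intro c hc
    obtain ⟨j, h1, -⟩ := hwideF c c hc hc
    exact ⟨j, h1⟩)
  have hA0det : A0.det ≠ 0 := by
    intro h0
    apply hA'det
    have h1 : A' = A0.map (algebraMap F K) := by
      ext a b
      exact hA0 a b
    have h2 : (A0.map (algebraMap F K)).det = algebraMap F K A0.det := by
      rw [RingHom.map_det]; rfl
    rw [h1, h2, h0, map_zero]
  refine ⟨s, A0, q0, hs0, hA0det, fun a b => ?_, fun a t => ?_⟩
  · rw [← hA0, hA', mul_div_cancel₀ _ (hs0 a)]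
  · rw [← hq0, hq', mul_div_cancel₀ _ (hs0 a)]

end Pool.Agent.Lib.P62i
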